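import Pool.Agent.H265R3.DF.Tile

namespace Pool.Agent.H265R3.DF

open MeasureTheory Filter Topology Set

/-! ### Riemann sums -/

/-- The cell index. -/
noncomputable def fl (a : ℝ) (x : E3) : Z3 := fun i => ⌊x i / a⌋

theorem measurable_fl (a : ℝ) : Measurable (fl a) := by
  refine measurable_pi_lambda _ (fun i => ?_)
  have h : Measurable (fun x : E3 => x i / a) := by fun_prop
  exact Int.measurable_floor.comp h

theorem cell_eq {a : ℝ} (ha : 0 < a) (u : Z3) : {x : E3 | fl a x = u} =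
    Set.pi Set.univ (fun i => Set.Ico (a * u i) (a * (u i + 1))) := by
  ext x
  simp only [Set.mem_ofPred_eq, Set.mem_univ_pi, Set.mem_Ico]
  constructor
  · intro h i
    have h1 : ⌊x i / a⌋ = u i := congrFun h i
    rw [Int.floor_eq_iff, le_div_iff₀ ha, div_lt_iff₀ ha] at h1
    constructor <;> linarith [h1.1, h1.2, mul_comm a (u i : ℝ), mul_comm a ((u i : ℝ) + 1)]
  · intro h
    ext i
    change ⌊x i / a⌋ = u i
    rw [Int.floor_eq_iff, le_div_iff₀ ha, div_lt_iff₀ ha]
    have := h i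
    constructor <;> linarith [this.1, this.2, mul_comm a (u i : ℝ), mul_comm a ((u i : ℝ) + 1)]

theorem vol_cell {a : ℝ} (ha : 0 < a) (u : Z3) : volume {x : E3 | fl a x = u} =
    ENNReal.ofReal (a ^ 3) := by
  rw [cell_eq ha, Real.volume_pi_Ico]
  have : ∀ i : Fin 3, ENNReal.ofReal (a * (u i + 1) - a * u i) = ENNReal.ofReal a := by
    intro i; congr 1; ring
  simp only [this]
  rw [Finset.prod_const, Finset.card_univ, Fintype.card_fin, ENNReal.ofReal_pow ha.le]

theorem int_fl {a : ℝ} (ha : 0 < a) (H : Z3 → ℝ) (hH : (Function.support H).Finite) :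
    ∫ x : E3, H (fl a x) = a ^ 3 * ∑' u, H u := by
  classical
  have h1 : ∀ x : E3, H (fl a x) =
      ∑ u ∈ hH.toFinset, Set.indicator {x : E3 | fl a x = u} (fun _ => H u) x := by
    intro x
    by_cases hx : H (fl a x) = 0
    · rw [hx]
      symm
      refine Finset.sum_eq_zero (fun u hu => ?_)
      rw [Set.indicator_apply_eq_zero]
      intro h
      have h' : fl a x = u := h
      rw [← h', hx]
    · rw [Finset.sum_eq_single (fl a x)]
      · rw [Set.indicator_of_mem (by exact rfl)]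
      · intro u _ hne
        rw [Set.indicator_of_notMem]
        intro h
        exact hne (by exact (show fl a x = u from h).symm)
      · intro h
        exact absurd (by simpa using hx) h
  have hms : ∀ u : Z3, MeasurableSet {x : E3 | fl a x = u} := by
    intro u
    exact (measurable_fl a) (MeasurableSet.singleton u)
  calc ∫ x : E3, H (fl a x)
      = ∫ x : E3, ∑ u ∈ hH.toFinset, Set.indicator {x : E3 | fl a x = u} (fun _ => H u) x := by
        simp only [h1]
    _ = ∑ u ∈ hH.toFinset, ∫ x : E3, Set.indicator {x : E3 | fl a x = u} (fun _ => H u) x := by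
        refine integral_finsetSum _ (fun u _ => ?_)
        refine (integrable_indicator_iff (hms u)).2 ?_
        exact integrableOn_const (by rw [vol_cell ha]; exact ENNReal.ofReal_ne_top)
    _ = ∑ u ∈ hH.toFinset, a ^ 3 * H u := by
        refine Finset.sum_congr rfl (fun u _ => ?_)
        rw [integral_indicator (hms u), setIntegral_const, Measure.real, vol_cell ha,
          ENNReal.toReal_ofReal (by positivity), smul_eq_mul]
    _ = a ^ 3 * ∑' u, H u := by
        rw [← Finset.mul_sum]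
        congr 1
        symm
        refine tsum_eq_sum (fun u hu => ?_)
        by_contra h
        exact hu (by simpa using h)

/-- The lattice point with the block `u` and the residue `ρ`. -/
def blk (u : Z3) (ρ : Fin 3 → Fin 6) : Z3 := fun i => 6 * u i + (ρ i : ℕ)

/-- Blocks and residues. -/
def blkEquiv : (Z3 × (Fin 3 → Fin 6)) ≃ Z3 where
  toFun p := blk p.1 p.2
  invFun v := (fun i => v i / 6, fun i => ⟨(v i % 6).toNat, by omega⟩)
  left_inv := by
    rintro ⟨u, ρ⟩
    ext i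
    · change (6 * u i + ((ρ i : ℕ) : ℤ)) / 6 = u i
      have := (ρ i).2
      omega
    · change ((6 * u i + ((ρ i : ℕ) : ℤ)) % 6).toNat = (ρ i : ℕ)
      have := (ρ i).2
      omega
  right_inv := by
    intro v
    ext i
    change 6 * (v i / 6) + (((v i % 6).toNat : ℕ) : ℤ) = v i
    omega

theorem tsum_blk (K : Z3 → ℝ) (hK : (Function.support K).Finite) :
    ∑' v, K v = ∑' u, ∑ ρ : Fin 3 → Fin 6, K (blk u ρ) := by
  have hs : Summable K := summable_of_hasFiniteSupport hK
  rw [← blkEquiv.tsum_eq K]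
  have hs' : Summable (fun p => K (blkEquiv p)) := (blkEquiv.summable_iff).2 hs
  rw [hs'.tsum_prod]
  refine tsum_congr (fun u => ?_)
  rw [tsum_fintype]
  rfl

theorem support_blk (K : Z3 → ℝ) (hK : (Function.support K).Finite) :
    (Function.support (fun u => ∑ ρ : Fin 3 → Fin 6, K (blk u ρ))).Finite := by
  refine (hK.image (fun v => fun i => v i / 6)).subset ?_
  intro u hu
  rw [Function.mem_support] at hu
  obtain ⟨ρ, -, hρ⟩ := Finset.exists_ne_zero_of_sum_ne_zero hu
  refine ⟨blk u ρ, hρ, ?_⟩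
  ext i
  change (6 * u i + ((ρ i : ℕ) : ℤ)) / 6 = u i
  have := (ρ i).2
  omega

/-! ### The summand -/

variable (m : ℕ → Z3 → Z3)

open Classical in
/-- The summand of the pairing. -/
noncomputable def KK (n : ℕ) (φ : E3 → E3) (v : Z3) : ℝ :=
  if IsEven v ∧ sc n v ∈ prism then
    ∑ i : Fin 3, (cur (m n) v i 1 * φ (mid n v i 1) i -
      cur (m n) v i (-1) * φ (mid n v i (-1)) i) else 0

theorem KK_support {n : ℕ} (hn : 1 ≤ n) (φ : E3 → E3) : (Function.support (KK m n φ)).Finite := by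
  refine (AA_finite hn).subset ?_
  intro v hv
  rw [Function.mem_support] at hv
  by_cases h : IsEven v ∧ sc n v ∈ prism
  · exact covers hn v h.2
  · exact absurd (by unfold KK; rw [if_neg h]) hv

theorem pairing_eq {n : ℕ} (hn : 1 ≤ n) (φ : E3 → E3) :
    pairing prism n (m n) φ =
      2 / 216 * ∫ x : E3, ∑ ρ : Fin 3 → Fin 6, KK m n φ (blk (fl (6 / n) x) ρ) := by
  have hn' : (0 : ℝ) < n := by exact_mod_cast hn
  have h1 : pairing prism n (m n) φ = 2 / (n : ℝ) ^ 3 * ∑' v, KK m n φ v := rfl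
  rw [h1, tsum_blk _ (KK_support m hn φ)]
  rw [int_fl (a := 6 / n) (by positivity) (fun u => ∑ ρ : Fin 3 → Fin 6, KK m n φ (blk u ρ))
    (support_blk _ (KK_support m hn φ))]
  field_simp
  norm_num

/-! ### Pointwise limits -/

theorem sc_blk_close {n : ℕ} (hn : 1 ≤ n) (x : E3) (ρ : Fin 3 → Fin 6) (i : Fin 3) :
    |sc n (blk (fl (6 / n) x) ρ) i - x i| ≤ 6 / n := by
  have hn' : (0 : ℝ) < n := by exact_mod_cast hn
  have h6 : (0 : ℝ) < 6 / n := by positivity
  have h1 : (sc n (blk (fl (6 / n) x) ρ) i) = (6 * (⌊x i / (6 / n)⌋ : ℝ) + ((ρ i : ℕ) : ℝ)) / n := by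
    unfold sc blk fl
    push_cast
    rfl
  rw [h1]
  have hf1 := Int.floor_le (x i / (6 / n))
  have hf2 := Int.lt_floor_add_one (x i / (6 / n))
  set f : ℝ := (⌊x i / (6 / n)⌋ : ℝ) with hf
  rw [le_div_iff₀ h6] at hf1
  rw [div_lt_iff₀ h6] at hf2
  have h2 : (0 : ℝ) ≤ ((ρ i : ℕ) : ℝ) := Nat.cast_nonneg _
  have h3 : ((ρ i : ℕ) : ℝ) ≤ 5 := by
    have := (ρ i).2
    exact_mod_cast (by omega : (ρ i : ℕ) ≤ 5)
  have h4 : (6 * f + ((ρ i : ℕ) : ℝ)) / n = f * (6 / n) + ((ρ i : ℕ) : ℝ) / n := by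
    field_simp
  have h5 : ((ρ i : ℕ) : ℝ) / n ≤ 6 / n := by
    gcongr
    linarith
  have h6 : 0 ≤ ((ρ i : ℕ) : ℝ) / n := by positivity
  rw [h4, abs_le]
  have h7 : (f + 1) * (6 / n) = f * (6 / n) + 6 / n := by ring
  constructor <;> linarith

theorem tendsto_six : Tendsto (fun n : ℕ => (6 : ℝ) / n) atTop (𝓝 0) :=
  tendsto_const_div_atTop_nhds_zero_nat 6

theorem sc_blk_lim (x : E3) (ρ : Fin 3 → Fin 6) :
    Tendsto (fun n : ℕ => sc n (blk (fl (6 / n) x) ρ)) atTop (𝓝 x) := by
  rw [tendsto_pi_nhds]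
  intro i
  rw [tendsto_iff_dist_tendsto_zero]
  refine squeeze_zero' (Eventually.of_forall (fun n => dist_nonneg)) ?_ tendsto_six
  filter_upwards [eventually_ge_atTop 1] with n hn
  rw [Real.dist_eq]
  exact sc_blk_close hn x ρ i

/-- The inner sum. -/
noncomputable def KI (n : ℕ) (φ : E3 → E3) (v : Z3) : ℝ :=
  ∑ i : Fin 3, (cur (m n) v i 1 * φ (mid n v i 1) i -
      cur (m n) v i (-1) * φ (mid n v i (-1)) i)

theorem mid_lim {x : E3} {y : ℕ → Z3} (hy : Tendsto (fun n => sc n (y n)) atTop (𝓝 x)) (i : Fin 3)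
    (s : ℤ) : Tendsto (fun n => mid n (y n) i s) atTop (𝓝 x) := by
  have h1 : Tendsto (fun n : ℕ => (s : ℝ) / (2 * n)) atTop (𝓝 0) := by
    have := tendsto_const_div_atTop_nhds_zero_nat ((s : ℝ) / 2)
    refine this.congr (fun n => ?_)
    rw [div_div]
  have h2 : Tendsto (fun n : ℕ => (Pi.single i ((s : ℝ) / (2 * n)) : E3)) atTop (𝓝 0) := by
    rw [tendsto_pi_nhds]
    intro j
    by_cases h : j = i
    · subst h
      simpa using h1
    · simp only [Pi.single_eq_of_ne h]
      exact tendsto_const_nhds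
  have := hy.add h2
  simpa [mid] using this

variable {m} in
theorem cur_of {n : ℕ} {v : Z3} {j : Fin 3} {s : ℤ} (hm : m n v = v + Pi.single j s) (i : Fin 3)
    (t : ℤ) (hs : s ≠ 0) :
    cur (m n) v i t = (if j = i ∧ s = t then 1 else 0) - 1 / 6 := by
  unfold cur
  rw [hm]
  congr 1
  have : (v + Pi.single j s = v + Pi.single i t) ↔ (j = i ∧ s = t) := by
    rw [add_right_inj]
    constructor
    · intro h
      have hj := congrFun h j
      rw [Pi.single_eq_same] at hj
      by_cases hji : j = i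
      · subst hji
        rw [Pi.single_eq_same] at hj
        exact ⟨rfl, hj⟩
      · rw [Pi.single_eq_of_ne hji] at hj
        exact absurd hj hs
    · rintro ⟨rfl, rfl⟩
      rfl
  by_cases h : j = i ∧ s = t
  · rw [if_pos (this.2 h), if_pos h]
  · rw [if_neg (fun h' => h (this.1 h')), if_neg h]

variable {m} in
theorem KI_lim {x : E3} {y : ℕ → Z3} (hy : Tendsto (fun n => sc n (y n)) atTop (𝓝 x)) {φ : E3 → E3}
    (hφ : Continuous φ) (j : Fin 3) (s : ℤ) (hs : s = 1 ∨ s = -1)
    (hm : ∀ᶠ n in atTop, m n (y n) = y n + Pi.single j s) :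
    Tendsto (fun n => KI m n φ (y n)) atTop (𝓝 ((s : ℝ) * φ x j)) := by
  have hs0 : s ≠ 0 := by rcases hs with h | h <;> rw [h] <;> norm_num
  have h1 : Tendsto (fun n => ∑ i : Fin 3,
      (((if j = i ∧ s = 1 then 1 else 0) - 1 / 6 : ℝ) * φ (mid n (y n) i 1) i -
      ((if j = i ∧ s = -1 then 1 else 0) - 1 / 6 : ℝ) * φ (mid n (y n) i (-1)) i)) atTop
      (𝓝 (∑ i : Fin 3, (((if j = i ∧ s = 1 then 1 else 0) - 1 / 6 : ℝ) * φ x i -
      ((if j = i ∧ s = -1 then 1 else 0) - 1 / 6 : ℝ) * φ x i))) := by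
    refine tendsto_finsetSum _ (fun i _ => ?_)
    have c1 : Tendsto (fun n => φ (mid n (y n) i 1) i) atTop (𝓝 (φ x i)) :=
      (((continuous_apply i).comp hφ).tendsto x).comp (mid_lim hy i 1)
    have c2 : Tendsto (fun n => φ (mid n (y n) i (-1)) i) atTop (𝓝 (φ x i)) :=
      (((continuous_apply i).comp hφ).tendsto x).comp (mid_lim hy i (-1))
    exact (c1.const_mul _).sub (c2.const_mul _)
  have h2 : (∑ i : Fin 3, (((if j = i ∧ s = 1 then 1 else 0) - 1 / 6 : ℝ) * φ x i -
      ((if j = i ∧ s = -1 then 1 else 0) - 1 / 6 : ℝ) * φ x i)) = (s : ℝ) * φ x j := by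
    have : ∀ i : Fin 3, (((if j = i ∧ s = 1 then 1 else 0) - 1 / 6 : ℝ) * φ x i -
      ((if j = i ∧ s = -1 then 1 else 0) - 1 / 6 : ℝ) * φ x i) =
        if j = i then (s : ℝ) * φ x i else 0 := by
      intro i
      rcases hs with h | h <;> subst h <;> by_cases hji : j = i <;> simp [hji] <;> ring
    simp only [this]
    rw [Finset.sum_ite_eq]
    simp
  rw [h2] at h1
  refine h1.congr' ?_
  filter_upwards [hm] with n hn
  unfold KI
  refine Finset.sum_congr rfl (fun i _ => ?_)
  rw [cur_of hn i 1 hs0, cur_of hn i (-1) hs0]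

end Pool.Agent.H265R3.DF
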