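import Mathlib

/-!
# Asymptotic flows of three dimensional dimer tilings: definitions
-/

namespace Pool.Agent.H265R3.DF

open MeasureTheory Filter Topology

/-- Three dimensional space, with Lebesgue measure. -/
abbrev E3 : Type := Fin 3 → ℝ

/-- The cubic lattice. -/
abbrev Z3 : Type := Fin 3 → ℤ

/-- The scalar product. -/
def dot (x y : E3) : ℝ := ∑ i : Fin 3, x i * y i

/-- The closed octahedron of mean currents. -/
def Oct : Set E3 := {s | |s 0| + |s 1| + |s 2| ≤ 1}

/-- The closed face of the octahedron with the vertices `e₁, e₂, e₃`. -/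
def faceF : Set E3 := {s | s ∈ Oct ∧ s 0 + s 1 + s 2 = 1}

/-- Even vertices of the lattice. -/
def IsEven (v : Z3) : Prop := Even (v 0 + v 1 + v 2)

/-- The point of the scaled lattice which corresponds to `v`. -/
noncomputable def sc (n : ℕ) (v : Z3) : E3 := fun i => (v i : ℝ) / n

/-- `m` (the partner map) is a dimer tiling of the finite set `A` of lattice points. -/
structure IsTiling (A : Set Z3) (m : Z3 → Z3) : Prop where
  fin : A.Finite
  mem : ∀ v ∈ A, m v ∈ A
  adj : ∀ v ∈ A, ∃ i : Fin 3, m v = v + Pi.single i 1 ∨ m v = v - Pi.single i 1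
  inv : ∀ v ∈ A, m (m v) = v

open Classical in
/-- The current of the flow `f_τ` from the even vertex `v` to its odd neighbour `v + s e_i`
(`s = 1` or `-1`): `1` if this edge is in the tiling and `0` otherwise, minus the reference `1/6`. -/
noncomputable def cur (m : Z3 → Z3) (v : Z3) (i : Fin 3) (s : ℤ) : ℝ :=
  (if m v = v + Pi.single i s then 1 else 0) - 1 / 6

/-- The scaled midpoint of the edge from `v` to `v + s e_i`. -/
noncomputable def mid (n : ℕ) (v : Z3) (i : Fin 3) (s : ℤ) : E3 :=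
  sc n v + Pi.single i ((s : ℝ) / (2 * n))

open Classical in
/-- The pairing of a continuous vector field `φ` with the scaled flow of the tiling `m`, restricted to
`R`: the edge from the even vertex `v` to `v + s e_i` carries the vector `s e_i` times the current,
with weight `2 / n³`, at its midpoint. -/
noncomputable def pairing (R : Set E3) (n : ℕ) (m : Z3 → Z3) (φ : E3 → E3) : ℝ :=
  2 / (n : ℝ) ^ 3 * ∑' v : Z3, if IsEven v ∧ sc n v ∈ R then
    ∑ i : Fin 3, (cur m v i 1 * φ (mid n v i 1) i - cur m v i (-1) * φ (mid n v i (-1)) i) else 0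

/-- `g` is an asymptotic flow on `R`: a measurable field with values in the octahedron which is
the weak limit of the scaled flows of dimer tilings of finite sets `A n` that cover `R` at
scale `n`. -/
def IsAF (R : Set E3) (g : E3 → E3) : Prop :=
  Measurable g ∧ (∀ᵐ x ∂(volume.restrict R), g x ∈ Oct) ∧
    ∃ (A : ℕ → Set Z3) (m : ℕ → Z3 → Z3),
      (∀ᶠ n in atTop, IsTiling (A n) (m n) ∧ ∀ v, sc n v ∈ R → v ∈ A n) ∧
      ∀ φ : E3 → E3, Continuous φ →
        Tendsto (fun n => pairing R n (m n) φ) atTop (𝓝 (∫ x in R, dot (φ x) (g x)))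

/-- `g` and `g'` have the same (normal) trace on the boundary of `R`: for every `C¹` function `φ` the
boundary integrals of `φ` against the normal components agree, that is,
`∫_R ∇φ · g = ∫_R ∇φ · g'`. -/
def SameTrace (R : Set E3) (g g' : E3 → E3) : Prop :=
  ∀ φ : E3 → ℝ, ContDiff ℝ 1 φ → ∫ x in R, fderiv ℝ φ x (g x) = ∫ x in R, fderiv ℝ φ x (g' x)

/-- The entropy functional. -/
noncomputable def Ent (ent : E3 → ℝ) (R : Set E3) (g : E3 → E3) : ℝ :=
  (∫ x in R, ent (g x)) / (volume R).toReal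

/-- `g` is Ent-maximizing for `(R, b)`, where `b` is the trace of `g`. -/
def IsEntMax (ent : E3 → ℝ) (R : Set E3) (g : E3 → E3) : Prop :=
  IsAF R g ∧ ∀ h, IsAF R h → SameTrace R h g → Ent ent R h ≤ Ent ent R g

/-- The region: a convex prism with a triangular base. -/
def prism : Set E3 :=
  {x | -1 ≤ x 0 - x 1 ∧ x 0 - x 1 ≤ x 0 + x 1 + x 2 ∧ x 0 + x 1 + x 2 ≤ 1 ∧ -1 ≤ x 2 ∧ x 2 ≤ 1}

open Classical in
/-- The flow: `(1/3, 1/3, 1/3)` where `x₁ + x₂ + x₃ < 0`, otherwise `e₁` where `x₁ - x₂ < 1/2` and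
`-e₂` where `x₁ - x₂ ≥ 1/2`. -/
noncomputable def g0 (x : E3) : E3 :=
  if x 0 + x 1 + x 2 < 0 then fun _ => 1 / 3
  else if x 0 - x 1 < 1 / 2 then Pi.single 0 1
  else - Pi.single 1 1

open Classical in
/-- A second flow: `e₁` where `x₁ - x₂ < 1/2` and `-e₂` where `x₁ - x₂ ≥ 1/2`. -/
noncomputable def g1 (x : E3) : E3 :=
  if x 0 - x 1 < 1 / 2 then Pi.single 0 1 else - Pi.single 1 1

end Pool.Agent.H265R3.DF
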