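import Pool.Agent.H265R3.DF.Rigid

namespace Pool.Agent.H265R3.DF

open MeasureTheory Filter Topology Set

variable {g : E3 → E3}

/-- `D` as a continuous linear map. -/
noncomputable def Dc : E3 →L[ℝ] ℝ := LinearMap.toContinuousLinearMap DL

theorem Dc_apply (x : E3) : Dc x = D x := rfl

/-- The sum of the first two coordinates. -/
def P (x : E3) : ℝ := x 0 + x 1

/-- `P` as a linear map. -/
def PL : E3 →ₗ[ℝ] ℝ where
  toFun := P
  map_add' x y := by simp [P]; ring
  map_smul' c x := by simp [P]; ring

/-- `P` as a continuous linear map. -/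
noncomputable def Pc : E3 →L[ℝ] ℝ := LinearMap.toContinuousLinearMap PL

theorem Pc_apply (x : E3) : Pc x = P x := rfl

theorem fd_D (x v : E3) : fderiv ℝ D x v = D v := by
  have h : HasFDerivAt D Dc x := Dc.hasFDerivAt
  rw [h.fderiv]; rfl

theorem fd_coord (i : Fin 3) (x v : E3) : fderiv ℝ (fun y : E3 => y i) x v = v i := by
  have h : HasFDerivAt (fun y : E3 => y i) (ContinuousLinearMap.proj (R := ℝ) i) x :=
    (ContinuousLinearMap.proj (R := ℝ) (φ := fun _ : Fin 3 => ℝ) i).hasFDerivAt
  rw [h.fderiv]; rfl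

theorem fd_quad (x v : E3) :
    fderiv ℝ (fun y : E3 => P y * (D y - 1 / 2)) x v = P x * D v + (D x - 1 / 2) * P v := by
  have h1 : HasFDerivAt P Pc x := Pc.hasFDerivAt
  have h2 : HasFDerivAt (fun y => D y - 1 / 2) Dc x := by
    have h : HasFDerivAt D Dc x := Dc.hasFDerivAt
    exact h.sub_const _
  have h3 : HasFDerivAt (fun y => P y * (D y - 1 / 2)) _ x := h1.mul h2
  rw [h3.fderiv]
  simp [Pc_apply, Dc_apply]

theorem D_g0 {x : E3} (h : 0 ≤ W x) : D (g0 x) = 1 := by
  by_cases h' : D x < 1 / 2
  · rw [g0_mid h h']; simp [D]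
  · rw [g0_top h (not_lt.1 h')]; simp [D]

theorem ite_adm (hg : Adm g) {φ : E3 → ℝ} (hφ : ContDiff ℝ 1 φ) : IntegrableOn
    (fun x => if W x < 0 then 0 else (fderiv ℝ φ x (g x) - fderiv ℝ φ x (g0 x))) prism := by
  have h := (integrable_fd hφ hg).sub (integrable_fd hφ adm_g0)
  have h2 : (fun x => if W x < 0 then 0 else (fderiv ℝ φ x (g x) - fderiv ℝ φ x (g0 x))) =
      Set.indicator {x | ¬ W x < 0} (fun x => fderiv ℝ φ x (g x) - fderiv ℝ φ x (g0 x)) := by
    ext x
    by_cases hw : W x < 0
    · rw [if_pos hw, Set.indicator_of_notMem (by simpa using hw)]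
    · rw [if_neg hw, Set.indicator_of_mem (by simpa using hw)]
  rw [h2]
  refine Integrable.indicator h ?_
  exact (isOpen_lt continuous_W continuous_const).measurableSet.compl

theorem step3 (hg : Adm g) (ht : SameTrace prism g g0) :
    ∀ᵐ x ∂(volume.restrict prism), 0 ≤ W x → D (g x) = 1 := by
  have hφ : ContDiff ℝ 1 D := Dc.contDiff
  have h1 := decouple hg ht hφ
  have h2 : 0 ≤ᵐ[volume.restrict prism] fun x =>
      -(if W x < 0 then 0 else (fderiv ℝ D x (g x) - fderiv ℝ D x (g0 x))) := by
    filter_upwards [hg.oct] with x hx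
    simp only [Pi.zero_apply]
    by_cases hw : W x < 0
    · rw [if_pos hw]; simp
    · rw [if_neg hw, fd_D, fd_D, D_g0 (not_lt.1 hw)]
      have := D_le_one hx
      linarith
  have h3 := (integral_eq_zero_iff_of_nonneg_ae h2 (ite_adm hg hφ).neg).1 (by
    rw [integral_neg, h1, neg_zero])
  filter_upwards [h3] with x hx hw
  simp only [Pi.zero_apply] at hx
  rw [if_neg (not_lt.2 hw), fd_D, fd_D, D_g0 hw] at hx
  linarith

theorem P_bounds {s : E3} (h : s ∈ Oct) : P s ≤ 1 ∧ -1 ≤ P s := by
  unfold Oct at h
  simp only [Set.mem_ofPred_eq] at h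
  unfold P
  constructor <;> linarith [le_abs_self (s 0), neg_abs_le (s 1), abs_nonneg (s 2),
    neg_abs_le (s 0), le_abs_self (s 1)]

theorem step4 (hg : Adm g) (ht : SameTrace prism g g0) :
    ∀ᵐ x ∂(volume.restrict prism), 0 ≤ W x → g x = g0 x := by
  have hφ : ContDiff ℝ 1 (fun y : E3 => P y * (D y - 1 / 2)) := by
    have h1 : ContDiff ℝ 1 P := Pc.contDiff
    have h2 : ContDiff ℝ 1 D := Dc.contDiff
    exact h1.mul (h2.sub contDiff_const)
  have h1 := decouple hg ht hφ
  have hD := step3 hg ht
  have h2 : 0 ≤ᵐ[volume.restrict prism] fun x =>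
      (if W x < 0 then 0 else (fderiv ℝ (fun y : E3 => P y * (D y - 1 / 2)) x (g x) -
        fderiv ℝ (fun y : E3 => P y * (D y - 1 / 2)) x (g0 x))) := by
    filter_upwards [hg.oct, hD] with x hx hDx
    simp only [Pi.zero_apply]
    by_cases hw : W x < 0
    · rw [if_pos hw]
    · have hw' := not_lt.1 hw
      rw [if_neg hw, fd_quad, fd_quad, D_g0 hw', hDx hw']
      have hb := P_bounds hx
      by_cases hd : D x < 1 / 2
      · have : P (g0 x) = 1 := by rw [g0_mid hw' hd]; simp [P]
        rw [this]
        nlinarith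
      · have : P (g0 x) = -1 := by rw [g0_top hw' (not_lt.1 hd)]; simp [P]
        rw [this]
        nlinarith
  have h3 := (integral_eq_zero_iff_of_nonneg_ae h2 (ite_adm hg hφ)).1 h1
  have h4 : ∀ᵐ x ∂(volume.restrict prism), D x ≠ 1 / 2 := by
    refine ae_restrict_of_ae ?_
    rw [ae_iff]
    simpa using null_D (1 / 2)
  filter_upwards [h3, h4, hD, hg.oct] with x hx hne hDx hoct hw
  simp only [Pi.zero_apply] at hx
  rw [if_neg (not_lt.2 hw), fd_quad, fd_quad, D_g0 hw, hDx hw] at hx
  have h5 : (D x - 1 / 2) * (P (g x) - P (g0 x)) = 0 := by linarith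
  have h6 : P (g x) = P (g0 x) := by
    have := (mul_eq_zero.1 h5).resolve_left (sub_ne_zero.2 hne)
    linarith
  have h7 : D (g x) = D (g0 x) := by rw [D_g0 hw, hDx hw]
  have h8 : D (g x) = 1 := hDx hw
  unfold P at h6
  unfold D at h7 h8
  have e0 : g x 0 = g0 x 0 := by linarith
  have e1 : g x 1 = g0 x 1 := by linarith
  have e2 : g x 2 = 0 := by
    unfold Oct at hoct
    simp only [Set.mem_ofPred_eq] at hoct
    have := le_abs_self (g x 0)
    have := neg_abs_le (g x 1)
    have : |g x 2| ≤ 0 := by linarith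
    exact abs_nonpos_iff.1 this
  have e3 : g0 x 2 = 0 := by
    by_cases hd : D x < 1 / 2
    · rw [g0_mid hw hd]; simp
    · rw [g0_top hw (not_lt.1 hd)]; simp
  ext i
  fin_cases i
  · exact e0
  · exact e1
  · change g x 2 = g0 x 2
    rw [e2, e3]

/-! ### The entropy -/

/-- The part below. -/
def low : Set E3 := prism ∩ {x | W x < 0}

theorem measurableSet_low : MeasurableSet low :=
  isClosed_prism.measurableSet.inter (isOpen_lt continuous_W continuous_const).measurableSet

theorem low_pos : volume low ≠ 0 := volA_pos.ne'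

theorem low_fin : volume low ≠ ⊤ :=
  ((measure_mono inter_subset_left).trans_lt prism_finite).ne

theorem integrable_coord (hg : Adm g) (i : Fin 3) : IntegrableOn (fun x => g x i) prism := by
  refine integrable_prism ((measurable_pi_apply i).comp hg.meas).aestronglyMeasurable 1 ?_
  filter_upwards [hg.oct] with x hx
  rw [Real.norm_eq_abs]
  exact oct_coord hx i

theorem low_mean (hg : Adm g) (ht : SameTrace prism g g0) (i : Fin 3) :
    ∫ x in low, g x i = ∫ x in low, g0 x i := by
  have hφ : ContDiff ℝ 1 (fun y : E3 => y i) := contDiff_apply ℝ ℝ i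
  have h1 := ht _ hφ
  simp only [fd_coord] at h1
  have hM : MeasurableSet {x : E3 | W x < 0} :=
    (isOpen_lt continuous_W continuous_const).measurableSet
  have s1 := integral_inter_add_sdiff (μ := volume) hM (integrable_coord hg i)
  have s2 := integral_inter_add_sdiff (μ := volume) hM (integrable_coord adm_g0 i)
  have h2 : ∫ x in prism \ {x | W x < 0}, g x i = ∫ x in prism \ {x | W x < 0}, g0 x i := by
    refine integral_congr_ae ?_
    have h3 := step4 hg ht
    have h4 : ∀ᵐ x ∂(volume.restrict (prism \ {x | W x < 0})), 0 ≤ W x → g x = g0 x :=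
      ae_restrict_of_ae_restrict_of_subset Set.sdiff_subset h3
    filter_upwards [h4, ae_restrict_mem (isClosed_prism.measurableSet.diff hM)] with x hx hxm
    have : 0 ≤ W x := not_lt.1 hxm.2
    rw [hx this]
  unfold low
  linarith

theorem coord_low (hg : Adm g) (i : Fin 3) : IntegrableOn (fun x => g x i) low :=
  (integrable_coord hg i).mono_set inter_subset_left

theorem int_low (hg : Adm g) : IntegrableOn g low := by
  have : Integrable g (volume.restrict low) := Integrable.of_eval (fun i => coord_low hg i)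
  exact this

theorem avg_eq (hg : Adm g) (ht : SameTrace prism g g0) :
    (⨍ x in low, g x) = fun _ => 1 / 3 := by
  ext i
  have h1 : (⨍ x in low, g x) i = ⨍ x in low, g x i := by
    rw [setAverage_eq, setAverage_eq, Pi.smul_apply]
    congr 1
    exact eval_integral (fun i => coord_low hg i) i
  rw [h1, setAverage_eq, low_mean hg ht i]
  have h2 : ∫ x in low, g0 x i = ∫ x in low, (1 / 3 : ℝ) := by
    refine setIntegral_congr_fun measurableSet_low (fun x hx => ?_)
    rw [g0_neg hx.2]
  rw [h2, setIntegral_const, smul_eq_mul, smul_eq_mul, ← mul_assoc]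
  have : (volume.real low) ≠ 0 := by
    rw [Measure.real]
    exact ENNReal.toReal_ne_zero.2 ⟨low_pos, low_fin⟩
  rw [inv_mul_cancel₀ this, one_mul]

theorem ent_int {ent : E3 → ℝ} (hc : ContinuousOn ent Oct) (hg : Adm g) :
    IntegrableOn (fun x => ent (g x)) prism := by
  classical
  obtain ⟨C, hC⟩ := isCompact_Oct.exists_bound_of_continuousOn hc
  have hm : Measurable (Oct.indicator ent) := by
    have h1 : Oct.indicator ent = Oct.piecewise ent (fun _ => 0) := by
      ext x; rfl
    rw [h1]
    exact hc.measurable_piecewise continuousOn_const isCompact_Oct.isClosed.measurableSet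
  have hae : (fun x => ent (g x)) =ᵐ[volume.restrict prism] fun x => Oct.indicator ent (g x) := by
    filter_upwards [hg.oct] with x hx
    rw [Set.indicator_of_mem hx]
  refine integrable_prism ((hm.comp hg.meas).aestronglyMeasurable.congr hae.symm) C ?_
  filter_upwards [hg.oct] with x hx
  exact hC _ hx

theorem ent_le {ent : E3 → ℝ} (hc : ContinuousOn ent Oct) (hconc : ConcaveOn ℝ Oct ent)
    (hg : Adm g) (ht : SameTrace prism g g0) : Ent ent prism g ≤ Ent ent prism g0 := by
  unfold Ent
  refine div_le_div_of_nonneg_right ?_ ENNReal.toReal_nonneg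
  have hM : MeasurableSet {x : E3 | W x < 0} :=
    (isOpen_lt continuous_W continuous_const).measurableSet
  have s1 := integral_inter_add_sdiff (μ := volume) hM (ent_int hc hg)
  have s2 := integral_inter_add_sdiff (μ := volume) hM (ent_int hc adm_g0)
  have h2 : ∫ x in prism \ {x | W x < 0}, ent (g x) =
      ∫ x in prism \ {x | W x < 0}, ent (g0 x) := by
    refine integral_congr_ae ?_
    have h4 : ∀ᵐ x ∂(volume.restrict (prism \ {x | W x < 0})), 0 ≤ W x → g x = g0 x :=
      ae_restrict_of_ae_restrict_of_subset Set.sdiff_subset (step4 hg ht)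
    filter_upwards [h4, ae_restrict_mem (isClosed_prism.measurableSet.diff hM)] with x hx hxm
    have : 0 ≤ W x := not_lt.1 hxm.2
    rw [hx this]
  have h3 : ∫ x in low, ent (g x) ≤ ∫ x in low, ent (g0 x) := by
    have hvol : 0 < volume.real low := by
      rw [Measure.real]
      exact ENNReal.toReal_pos low_pos low_fin
    have hJ := hconc.le_map_set_average hc isCompact_Oct.isClosed low_pos low_fin
      (ae_restrict_of_ae_restrict_of_subset inter_subset_left hg.oct)
      (int_low hg)
      ((ent_int hc hg).mono_set inter_subset_left)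
    rw [avg_eq hg ht, setAverage_eq, smul_eq_mul] at hJ
    have h5 : ∫ x in low, ent (g0 x) = volume.real low * ent (fun _ => 1 / 3) := by
      have : ∫ x in low, ent (g0 x) = ∫ x in low, ent (fun _ => 1 / 3) := by
        refine setIntegral_congr_fun measurableSet_low (fun x hx => ?_)
        rw [g0_neg hx.2]
      rw [this, setIntegral_const, smul_eq_mul]
    rw [h5]
    have h6 := mul_le_mul_of_nonneg_left hJ hvol.le
    rw [← mul_assoc, mul_inv_cancel₀ hvol.ne', one_mul] at h6
    exact h6
  unfold low at h3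
  linarith

end Pool.Agent.H265R3.DF
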