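import Pool.Agent.H265R3.DF.Conv
import Pool.Agent.H265R3.DF.Rigid2

namespace Pool.Agent.H265R3.DF

open MeasureTheory Filter Topology Set

/-- Sum of the residues. -/
def sr (ρ : Fin 3 → Fin 6) : ℤ := ((ρ 0 : ℕ) : ℤ) + ((ρ 1 : ℕ) : ℤ) + ((ρ 2 : ℕ) : ℤ)

theorem lw_blk (u : Z3) (ρ : Fin 3 → Fin 6) : lw (blk u ρ) = 6 * (u 0 + u 1 + u 2) + sr ρ := by
  unfold lw blk sr; ring

theorem even_blk (u : Z3) (ρ : Fin 3 → Fin 6) : IsEven (blk u ρ) ↔ Even (sr ρ) := by
  rw [isEven_iff, lw_blk, Int.even_iff, Int.even_iff]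
  omega

theorem jj_blk (u : Z3) (ρ : Fin 3 → Fin 6) : jj (lw (blk u ρ)) = jj (sr ρ) := by
  have : lw (blk u ρ) % 6 = sr ρ % 6 := by rw [lw_blk]; omega
  unfold jj
  rw [this]

theorem card_even : (Finset.univ.filter (fun ρ : Fin 3 → Fin 6 => Even (sr ρ))).card = 108 := by
  decide +kernel

theorem card_jj (j : Fin 3) :
    (Finset.univ.filter (fun ρ : Fin 3 → Fin 6 => Even (sr ρ) ∧ jj (sr ρ) = j)).card = 36 := by
  revert j
  decide +kernel

theorem sum_even (c : ℝ) : ∑ ρ : Fin 3 → Fin 6, (if Even (sr ρ) then c else 0) = 108 * c := by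
  rw [← Finset.sum_filter, Finset.sum_const, card_even, nsmul_eq_mul]
  norm_num

theorem sum_jj (ψ : E3) : ∑ ρ : Fin 3 → Fin 6, (if Even (sr ρ) then ψ (jj (sr ρ)) else 0) =
    36 * (ψ 0 + ψ 1 + ψ 2) := by
  have h1 : ∀ ρ : Fin 3 → Fin 6, (if Even (sr ρ) then ψ (jj (sr ρ)) else 0) =
      ∑ j : Fin 3, (if Even (sr ρ) ∧ jj (sr ρ) = j then ψ j else 0) := by
    intro ρ
    by_cases h : Even (sr ρ)
    · rw [if_pos h]
      simp only [h, true_and]
      rw [Finset.sum_ite_eq]
      simp
    · rw [if_neg h]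
      symm
      refine Finset.sum_eq_zero (fun j _ => ?_)
      rw [if_neg (fun h' => h h'.1)]
  simp only [h1]
  rw [Finset.sum_comm]
  have h2 : ∀ j : Fin 3, ∑ ρ : Fin 3 → Fin 6,
      (if Even (sr ρ) ∧ jj (sr ρ) = j then ψ j else 0) = 36 * ψ j := by
    intro j
    rw [← Finset.sum_filter, Finset.sum_const, card_jj, nsmul_eq_mul]
    norm_num
  simp only [h2]
  rw [Fin.sum_univ_three]
  ring

open Classical in
/-- The limit of the summand. -/
noncomputable def LL (φ : E3 → E3) (x : E3) (ρ : Fin 3 → Fin 6) : ℝ :=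
  if Even (sr ρ) then
    (if x ∈ prism then
      (if W x < 0 then φ x (jj (sr ρ)) else if D x < 1 / 2 then φ x 0 else - φ x 1) else 0)
  else 0

theorem sum_LL (φ : E3 → E3) (x : E3) :
    ∑ ρ, LL φ x ρ = 108 * Set.indicator prism (fun x => dot (φ x) (g0 x)) x := by
  unfold LL
  by_cases hx : x ∈ prism
  · rw [Set.indicator_of_mem hx]
    simp only [hx, if_true]
    by_cases hw : W x < 0
    · simp only [hw, if_true]
      rw [sum_jj, g0_neg hw]
      unfold dot
      rw [Fin.sum_univ_three]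
      ring
    · simp only [hw, if_false]
      by_cases hd : D x < 1 / 2
      · simp only [hd, if_true]
        rw [sum_even, g0_mid (not_lt.1 hw) hd]
        unfold dot
        rw [Fin.sum_univ_three]
        simp
      · simp only [hd, if_false]
        rw [sum_even, g0_top (not_lt.1 hw) (not_lt.1 hd)]
        unfold dot
        rw [Fin.sum_univ_three]
        simp
  · rw [Set.indicator_of_notMem hx]
    simp [hx]

theorem KK_of_mem (m : ℕ → Z3 → Z3) {n : ℕ} {φ : E3 → E3} {v : Z3} (h1 : IsEven v)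
    (h2 : sc n v ∈ prism) : KK m n φ v = KI m n φ v := by
  unfold KK KI
  rw [if_pos ⟨h1, h2⟩]

theorem KK_lim {φ : E3 → E3} (hφ : Continuous φ) {x : E3} (hfr : x ∉ frontier prism)
    (hW : W x ≠ 0) (hD : D x ≠ 1 / 2) (ρ : Fin 3 → Fin 6) :
    Tendsto (fun n : ℕ => KK mm n φ (blk (fl (6 / n) x) ρ)) atTop (𝓝 (LL φ x ρ)) := by
  have hy := sc_blk_lim x ρ
  set y : ℕ → Z3 := fun n => blk (fl (6 / n) x) ρ with hydef
  have hy' : Tendsto (fun n => sc n (y n)) atTop (𝓝 x) := hy
  by_cases he : Even (sr ρ)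
  · by_cases hx : x ∈ prism
    · have hint : x ∈ interior prism := by
        by_contra h
        exact hfr ⟨subset_closure hx, h⟩
      have hev : ∀ᶠ n in atTop, sc n (y n) ∈ prism :=
        (hy'.eventually (isOpen_interior.mem_nhds hint)).mono (fun n h => interior_subset h)
      have hKI : ∀ᶠ n in atTop, KI mm n φ (y n) = KK mm n φ (y n) := by
        filter_upwards [hev] with n hn
        exact (KK_of_mem mm ((even_blk _ _).2 he) hn).symm
      have hLL : LL φ x ρ =
          (if W x < 0 then φ x (jj (sr ρ)) else if D x < 1 / 2 then φ x 0 else - φ x 1) := by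
        unfold LL
        rw [if_pos he, if_pos hx]
      rw [hLL]
      by_cases hw : W x < 0
      · rw [if_pos hw]
        have hw' : ∀ᶠ n in atTop, W (sc n (y n)) < 0 :=
          ((continuous_W.tendsto x).comp hy').eventually (gt_mem_nhds hw)
        have hm : ∀ᶠ n in atTop, mm n (y n) = y n + Pi.single (jj (sr ρ)) 1 := by
          filter_upwards [hw', eventually_ge_atTop 1] with n hn h1
          have hn' : (0 : ℝ) < n := by exact_mod_cast h1
          rw [W_sc, div_neg_iff] at hn
          have h2 : (lw (y n) : ℝ) < 0 := by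
            rcases hn with h | h
            · linarith
            · exact h.1
          have h3 : lw (y n) < 0 := by exact_mod_cast h2
          rw [mm_e1 ((even_blk _ _).2 he) h3, jj_blk]
        have := KI_lim hy' hφ (jj (sr ρ)) 1 (Or.inl rfl) hm
        rw [Int.cast_one, one_mul] at this
        exact this.congr' hKI
      · rw [if_neg hw]
        have hw0 : 0 < W x := lt_of_le_of_ne (not_lt.1 hw) (Ne.symm hW)
        have hw' : ∀ᶠ n in atTop, 0 < W (sc n (y n)) :=
          ((continuous_W.tendsto x).comp hy').eventually (lt_mem_nhds hw0)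
        have hl : ∀ᶠ n in atTop, ¬ lw (y n) < 0 := by
          filter_upwards [hw', eventually_ge_atTop 1] with n hn h1
          have hn' : (0 : ℝ) < n := by exact_mod_cast h1
          rw [W_sc] at hn
          have h2 : 0 < (lw (y n) : ℝ) := by
            by_contra h
            have := div_nonpos_of_nonpos_of_nonneg (not_lt.1 h) hn'.le
            linarith
          have h3 : 0 < lw (y n) := by exact_mod_cast h2
          omega
        by_cases hd : D x < 1 / 2
        · rw [if_pos hd]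
          have hd' : ∀ᶠ n in atTop, D (sc n (y n)) < 1 / 2 :=
            ((continuous_D.tendsto x).comp hy').eventually (gt_mem_nhds hd)
          have hm : ∀ᶠ n in atTop, mm n (y n) = y n + Pi.single 0 1 := by
            filter_upwards [hl, hd', eventually_ge_atTop 1] with n hn1 hn2 h1
            have hn' : (0 : ℝ) < n := by exact_mod_cast h1
            rw [D_sc, div_lt_iff₀ hn'] at hn2
            have h2 : 2 * (ld (y n) : ℝ) < (n : ℝ) := by linarith
            have h3 : 2 * ld (y n) < (n : ℤ) := by exact_mod_cast h2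
            exact mm_e2 ((even_blk _ _).2 he) hn1 h3
          have := KI_lim hy' hφ 0 1 (Or.inl rfl) hm
          rw [Int.cast_one, one_mul] at this
          exact this.congr' hKI
        · rw [if_neg hd]
          have hd0 : 1 / 2 < D x := lt_of_le_of_ne (not_lt.1 hd) (Ne.symm hD)
          have hd' : ∀ᶠ n in atTop, 1 / 2 < D (sc n (y n)) :=
            ((continuous_D.tendsto x).comp hy').eventually (lt_mem_nhds hd0)
          have hm : ∀ᶠ n in atTop, mm n (y n) = y n + Pi.single 1 (-1) := by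
            filter_upwards [hl, hd', eventually_ge_atTop 1] with n hn1 hn2 h1
            have hn' : (0 : ℝ) < n := by exact_mod_cast h1
            rw [D_sc, lt_div_iff₀ hn'] at hn2
            have h2 : (n : ℝ) < 2 * (ld (y n) : ℝ) := by linarith
            have h3 : (n : ℤ) < 2 * ld (y n) := by exact_mod_cast h2
            exact mm_e3 ((even_blk _ _).2 he) hn1 (by omega)
          have := KI_lim hy' hφ 1 (-1) (Or.inr rfl) hm
          rw [Int.cast_neg, Int.cast_one, neg_one_mul] at this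
          exact this.congr' hKI
    · have hev : ∀ᶠ n in atTop, sc n (y n) ∉ prism :=
        hy'.eventually (isClosed_prism.isOpen_compl.mem_nhds hx)
      have hLL : LL φ x ρ = 0 := by
        unfold LL
        rw [if_pos he, if_neg hx]
      rw [hLL]
      refine tendsto_const_nhds.congr' ?_
      filter_upwards [hev] with n hn
      unfold KK
      rw [if_neg (fun h => hn h.2)]
  · have hLL : LL φ x ρ = 0 := by
      unfold LL
      rw [if_neg he]
    rw [hLL]
    refine tendsto_const_nhds.congr (fun n => ?_)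
    unfold KK
    rw [if_neg (fun h => he ((even_blk _ _).1 h.1))]

/-! ### Domination -/

theorem mid_bound {n : ℕ} (hn : 1 ≤ n) {v : Z3} (h : sc n v ∈ prism) (i : Fin 3) (s : ℤ)
    (hs : s = 1 ∨ s = -1) : mid n v i s ∈ Metric.closedBall (0 : E3) 3 := by
  rw [mem_closedBall_zero_iff]
  refine (pi_norm_le_iff_of_nonneg (by norm_num)).2 (fun j => ?_)
  have hn' : (1 : ℝ) ≤ n := by exact_mod_cast hn
  have h1 := prism_bound h j
  have h2 : |(Pi.single i ((s : ℝ) / (2 * n)) : E3) j| ≤ 1 := by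
    by_cases hj : j = i
    · subst hj
      rw [Pi.single_eq_same, abs_div, abs_of_pos (by positivity : (0 : ℝ) < 2 * n),
        div_le_one (by positivity)]
      rcases hs with h | h <;> subst h <;> simp <;> linarith
    · rw [Pi.single_eq_of_ne hj]; simp
  unfold mid
  rw [Pi.add_apply, Real.norm_eq_abs]
  calc |sc n v j + (Pi.single i ((s : ℝ) / (2 * n)) : E3) j|
      ≤ |sc n v j| + |(Pi.single i ((s : ℝ) / (2 * n)) : E3) j| := abs_add_le _ _
    _ ≤ 2 + 1 := add_le_add h1 h2
    _ = 3 := by norm_num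

theorem cur_bound (m : Z3 → Z3) (v : Z3) (i : Fin 3) (s : ℤ) : |cur m v i s| ≤ 1 := by
  unfold cur
  split_ifs <;> norm_num [abs_le]

theorem KK_bound (m : ℕ → Z3 → Z3) {φ : E3 → E3} (hφ : Continuous φ) :
    ∃ C : ℝ, 0 ≤ C ∧ ∀ n : ℕ, 1 ≤ n → ∀ v : Z3, |KK m n φ v| ≤ C := by
  have hc : Continuous (fun y : E3 => ‖φ y‖) := hφ.norm
  obtain ⟨C, hC⟩ := (isCompact_closedBall (0 : E3) 3).bddAbove_image hc.continuousOn
  have hC' : ∀ y ∈ Metric.closedBall (0 : E3) 3, ‖φ y‖ ≤ max C 0 := fun y hy =>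
    le_trans (hC ⟨y, hy, rfl⟩) (le_max_left _ _)
  refine ⟨6 * max C 0, by positivity, fun n hn v => ?_⟩
  unfold KK
  by_cases h : IsEven v ∧ sc n v ∈ prism
  · rw [if_pos h]
    have key : ∀ (i : Fin 3) (s : ℤ), s = 1 ∨ s = -1 →
        |cur (m n) v i s * φ (mid n v i s) i| ≤ max C 0 := by
      intro i s hs
      rw [abs_mul]
      calc |cur (m n) v i s| * |φ (mid n v i s) i| ≤ 1 * ‖φ (mid n v i s)‖ :=
            mul_le_mul (cur_bound _ _ _ _) (by rw [← Real.norm_eq_abs]; exact norm_le_pi_norm _ i)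
              (abs_nonneg _) (by norm_num)
        _ ≤ max C 0 := by rw [one_mul]; exact hC' _ (mid_bound hn h.2 i s hs)
    calc |∑ i : Fin 3, (cur (m n) v i 1 * φ (mid n v i 1) i -
          cur (m n) v i (-1) * φ (mid n v i (-1)) i)|
        ≤ ∑ i : Fin 3, |cur (m n) v i 1 * φ (mid n v i 1) i -
          cur (m n) v i (-1) * φ (mid n v i (-1)) i| := Finset.abs_sum_le_sum_abs _ _
      _ ≤ ∑ _i : Fin 3, (max C 0 + max C 0) := by
          refine Finset.sum_le_sum (fun i _ => ?_)
          exact (abs_sub _ _).trans (add_le_add (key i 1 (Or.inl rfl)) (key i (-1) (Or.inr rfl)))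
      _ = 6 * max C 0 := by
          rw [Finset.sum_const, Finset.card_univ, Fintype.card_fin, nsmul_eq_mul]
          push_cast
          ring
  · rw [if_neg h]
    simp

theorem KK_zero_far (m : ℕ → Z3 → Z3) {n : ℕ} (hn : 1 ≤ n) (φ : E3 → E3) {x : E3}
    (hx : x ∉ Metric.closedBall (0 : E3) 8) (ρ : Fin 3 → Fin 6) :
    KK m n φ (blk (fl (6 / n) x) ρ) = 0 := by
  unfold KK
  rw [if_neg]
  rintro ⟨-, h⟩
  apply hx
  rw [mem_closedBall_zero_iff]
  refine (pi_norm_le_iff_of_nonneg (by norm_num)).2 (fun i => ?_)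
  have h1 := prism_bound h i
  have h2 := sc_blk_close hn x ρ i
  have h3 : (6 : ℝ) / n ≤ 6 := by
    have hn' : (1 : ℝ) ≤ n := by exact_mod_cast hn
    exact div_le_self (by norm_num) hn'
  rw [Real.norm_eq_abs]
  rw [abs_le] at h1 h2 ⊢
  constructor <;> linarith [h1.1, h1.2, h2.1, h2.2]

theorem pairing_lim_gen (m : ℕ → Z3 → Z3) (g : E3 → E3) {φ : E3 → E3} (hφ : Continuous φ)
    (L : E3 → (Fin 3 → Fin 6) → ℝ)
    (hsum : ∀ x, ∑ ρ, L x ρ = 108 * Set.indicator prism (fun x => dot (φ x) (g x)) x)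
    (hlim : ∀ᵐ x : E3, ∀ ρ : Fin 3 → Fin 6,
      Tendsto (fun n : ℕ => KK m n φ (blk (fl (6 / n) x) ρ)) atTop (𝓝 (L x ρ))) :
    Tendsto (fun n => pairing prism n (m n) φ) atTop
      (𝓝 (∫ x in prism, dot (φ x) (g x))) := by
  obtain ⟨C, hC0, hC⟩ := KK_bound m hφ
  have h1 : Tendsto (fun n : ℕ => ∫ x : E3, ∑ ρ : Fin 3 → Fin 6, KK m (n + 1) φ
      (blk (fl (6 / ((n + 1 : ℕ) : ℝ)) x) ρ)) atTop
      (𝓝 (∫ x : E3, 108 * Set.indicator prism (fun x => dot (φ x) (g x)) x)) := by
    refine tendsto_integral_of_dominated_convergence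
      (Set.indicator (Metric.closedBall (0 : E3) 8) (fun _ => 216 * C)) ?_ ?_ ?_ ?_
    · intro n
      have hm : Measurable (fun u : Z3 => ∑ ρ : Fin 3 → Fin 6, KK m (n + 1) φ (blk u ρ)) :=
        measurable_of_countable _
      exact (hm.comp (measurable_fl _)).aestronglyMeasurable
    · refine (integrable_indicator_iff Metric.isClosed_closedBall.measurableSet).2 ?_
      exact integrableOn_const (isCompact_closedBall (0 : E3) 8).measure_lt_top.ne
    · intro n
      refine Eventually.of_forall (fun x => ?_)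
      by_cases hx : x ∈ Metric.closedBall (0 : E3) 8
      · rw [Set.indicator_of_mem hx, Real.norm_eq_abs]
        refine (Finset.abs_sum_le_sum_abs _ _).trans ?_
        refine (Finset.sum_le_sum (fun ρ _ => hC (n + 1) (by omega) _)).trans ?_
        rw [Finset.sum_const, Finset.card_univ, nsmul_eq_mul]
        simp
      · rw [Set.indicator_of_notMem hx, Real.norm_eq_abs]
        rw [Finset.sum_eq_zero (fun ρ _ => KK_zero_far m (by omega) φ hx ρ)]
        simp
    · filter_upwards [hlim] with x hx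
      rw [← hsum]
      refine tendsto_finsetSum _ (fun ρ _ => ?_)
      exact (hx ρ).comp (tendsto_add_atTop_nat 1)
  rw [integral_const_mul, integral_indicator isClosed_prism.measurableSet] at h1
  have h2 := h1.const_mul (2 / 216)
  have h3 : (2 / 216 : ℝ) * (108 * ∫ x in prism, dot (φ x) (g x)) =
      ∫ x in prism, dot (φ x) (g x) := by ring
  rw [h3] at h2
  rw [← tendsto_add_atTop_iff_nat 1]
  refine h2.congr (fun n => ?_)
  rw [pairing_eq m (by omega) φ]

theorem ae_good : ∀ᵐ x : E3, x ∉ frontier prism ∧ W x ≠ 0 ∧ D x ≠ 1 / 2 := by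
  have e1 : ∀ᵐ x : E3, x ∉ frontier prism := by
    rw [ae_iff]; simpa using null_frontier_prism
  have e2 : ∀ᵐ x : E3, W x ≠ 0 := by
    rw [ae_iff]; simpa using null_W 0
  have e3 : ∀ᵐ x : E3, D x ≠ 1 / 2 := by
    rw [ae_iff]; simpa using null_D (1 / 2)
  filter_upwards [e1, e2, e3] with x hx1 hx2 hx3
  exact ⟨hx1, hx2, hx3⟩

theorem pairing_lim {φ : E3 → E3} (hφ : Continuous φ) :
    Tendsto (fun n => pairing prism n (mm n) φ) atTop
      (𝓝 (∫ x in prism, dot (φ x) (g0 x))) := by
  refine pairing_lim_gen mm g0 hφ (LL φ) (sum_LL φ) ?_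
  filter_upwards [ae_good] with x hx ρ
  exact KK_lim hφ hx.1 hx.2.1 hx.2.2 ρ

theorem isAF_g0 : IsAF prism g0 := by
  refine ⟨measurable_g0, Eventually.of_forall g0_oct, AA, mm, ?_, fun φ hφ => pairing_lim hφ⟩
  filter_upwards [eventually_ge_atTop 1] with n hn
  exact ⟨tiling hn, covers hn⟩

theorem IsAF.adm {g : E3 → E3} (h : IsAF prism g) : Adm g := ⟨h.1, h.2.1⟩

/-- Almost everywhere in the lower part the field has values in the face. -/
theorem all_low {h : E3 → E3} (hg : IsAF prism h) (ht : SameTrace prism h g0) :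
    0 < volume {x | x ∈ prism ∧ h x ∈ faceF} := by
  refine lt_of_lt_of_le volA_pos (measure_mono_ae ?_)
  have h1 := step1 hg.adm ht
  have h2 := hg.adm.oct
  rw [ae_restrict_iff' isClosed_prism.measurableSet] at h1 h2
  filter_upwards [h1, h2] with x hx1 hx2 hx
  exact ⟨hx.1, hx2 hx.1, hx1 hx.1 hx.2⟩

/-- The complement. -/
theorem all_high {h : E3 → E3} (hg : IsAF prism h) (ht : SameTrace prism h g0) :
    0 < volume {x | x ∈ prism ∧ h x ∉ faceF} := by
  refine lt_of_lt_of_le volB_pos (measure_mono_ae ?_)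
  have h1 := step4 hg.adm ht
  rw [ae_restrict_iff' isClosed_prism.measurableSet] at h1
  filter_upwards [h1] with x hx1 hx
  refine ⟨hx.1, ?_⟩
  rw [hx1 hx.1 hx.2.1.le, g0_top hx.2.1.le hx.2.2.le]
  rintro ⟨-, h⟩
  have h2 : (Pi.single (1 : Fin 3) (1 : ℝ) : E3) 2 = 0 := by simp
  rw [Pi.neg_apply, Pi.neg_apply, Pi.neg_apply, h2, Pi.single_eq_same] at h
  norm_num at h

theorem vol_third : 0 < volume {x | x ∈ prism ∧ g0 x = fun _ => 1 / 3} := by
  refine lt_of_lt_of_le volA_pos (measure_mono ?_)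
  rintro x ⟨h1, h2⟩
  exact ⟨h1, g0_neg h2⟩

end Pool.Agent.H265R3.DF
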