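import Pool.Agent.H265R3.DF.Defs

namespace Pool.Agent.H265R3.DF

open MeasureTheory Filter Topology Set

/-- The level. -/
def W (x : E3) : ℝ := x 0 + x 1 + x 2

/-- The second linear function. -/
def D (x : E3) : ℝ := x 0 - x 1

theorem continuous_W : Continuous W := by unfold W; fun_prop

theorem continuous_D : Continuous D := by unfold D; fun_prop

theorem null_level (L : E3 →ₗ[ℝ] ℝ) (hL : L ≠ 0) (c : ℝ) : volume {x : E3 | L x = c} = 0 := by
  by_cases h : ∃ p, L p = c
  · obtain ⟨p, hp⟩ := h
    have hker : volume ((LinearMap.ker L : Submodule ℝ E3) : Set E3) = 0 := by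
      apply Measure.addHaar_submodule
      intro htop
      exact hL (LinearMap.ker_eq_top.1 htop)
    have : {x : E3 | L x = c} = (fun x => x + (-p)) ⁻¹' ((LinearMap.ker L : Submodule ℝ E3) : Set E3) := by
      ext x
      simp only [Set.mem_ofPred_eq, Set.mem_preimage, SetLike.mem_coe, LinearMap.mem_ker, map_add,
        map_neg, hp]
      constructor
      · intro h; rw [h]; ring
      · intro h; linarith
    rw [this, measure_preimage_add_right]
    exact hker
  · have : {x : E3 | L x = c} = ∅ := by
      ext x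
      simp only [Set.mem_ofPred_eq, Set.mem_empty_iff_false, iff_false]
      exact fun hx => h ⟨x, hx⟩
    rw [this, measure_empty]

/-- `W` as a linear map. -/
def WL : E3 →ₗ[ℝ] ℝ where
  toFun := W
  map_add' x y := by simp [W]; ring
  map_smul' c x := by simp [W]; ring

/-- `D` as a linear map. -/
def DL : E3 →ₗ[ℝ] ℝ where
  toFun := D
  map_add' x y := by simp [D]; ring
  map_smul' c x := by simp [D]; ring

theorem null_W (c : ℝ) : volume {x : E3 | W x = c} = 0 := by
  refine null_level WL ?_ c
  intro h
  have := congrArg (fun L : E3 →ₗ[ℝ] ℝ => L (fun _ => 1)) h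
  simp [WL, W] at this
  norm_num at this

theorem null_D (c : ℝ) : volume {x : E3 | D x = c} = 0 := by
  refine null_level DL ?_ c
  intro h
  have := congrArg (fun L : E3 →ₗ[ℝ] ℝ => L (Pi.single 0 1)) h
  simp [DL, D] at this

theorem mem_prism (x : E3) : x ∈ prism ↔ -1 ≤ D x ∧ D x ≤ W x ∧ W x ≤ 1 ∧ -1 ≤ x 2 ∧ x 2 ≤ 1 :=
  Iff.rfl

theorem isClosed_prism : IsClosed prism := by
  have : prism = {x | -1 ≤ D x} ∩ ({x | D x ≤ W x} ∩ ({x | W x ≤ 1} ∩
      ({x : E3 | -1 ≤ x 2} ∩ {x : E3 | x 2 ≤ 1}))) := by
    ext x; exact mem_prism x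
  rw [this]
  refine (isClosed_le continuous_const continuous_D).inter
    ((isClosed_le continuous_D continuous_W).inter
    ((isClosed_le continuous_W continuous_const).inter
    ((isClosed_le continuous_const (continuous_apply 2)).inter
    (isClosed_le (continuous_apply 2) continuous_const))))

theorem prism_bound {x : E3} (hx : x ∈ prism) : ∀ i, |x i| ≤ 2 := by
  obtain ⟨h1, h2, h3, h4, h5⟩ := (mem_prism x).1 hx
  unfold D W at *
  intro i
  fin_cases i
  · simp only [Fin.zero_eta]
    rw [abs_le]; constructor <;> linarith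
  · simp only [Fin.mk_one]
    rw [abs_le]; constructor <;> linarith
  · simp only [Fin.reduceFinMk]
    rw [abs_le]; constructor <;> linarith

theorem isCompact_prism : IsCompact prism := by
  apply Metric.isCompact_of_isClosed_isBounded isClosed_prism
  rw [isBounded_iff_forall_norm_le]
  exact ⟨2, fun x hx => (pi_norm_le_iff_of_nonneg (by norm_num)).2 (fun i => by
    rw [Real.norm_eq_abs]; exact prism_bound hx i)⟩

theorem convex_prism : Convex ℝ prism := by
  intro x hx y hy a b ha hb hab
  rw [mem_prism] at hx hy ⊢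
  unfold D W at *
  simp only [Pi.add_apply, Pi.smul_apply, smul_eq_mul]
  obtain ⟨h1, h2, h3, h4, h5⟩ := hx
  obtain ⟨k1, k2, k3, k4, k5⟩ := hy
  have hb' : b = 1 - a := by linarith
  subst hb'
  refine ⟨?_, ?_, ?_, ?_, ?_⟩ <;> nlinarith

/-- The open prism. -/
def openPrism : Set E3 := {x | -1 < D x ∧ D x < W x ∧ W x < 1 ∧ -1 < x 2 ∧ x 2 < 1}

theorem isOpen_openPrism : IsOpen openPrism := by
  have : openPrism = {x | -1 < D x} ∩ ({x | D x < W x} ∩ ({x | W x < 1} ∩
      ({x : E3 | -1 < x 2} ∩ {x : E3 | x 2 < 1}))) := by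
    ext x; exact Iff.rfl
  rw [this]
  refine (isOpen_lt continuous_const continuous_D).inter
    ((isOpen_lt continuous_D continuous_W).inter
    ((isOpen_lt continuous_W continuous_const).inter
    ((isOpen_lt continuous_const (continuous_apply 2)).inter
    (isOpen_lt (continuous_apply 2) continuous_const))))

theorem openPrism_sub : openPrism ⊆ prism := by
  rintro x ⟨h1, h2, h3, h4, h5⟩
  rw [mem_prism]
  exact ⟨h1.le, h2.le, h3.le, h4.le, h5.le⟩

/-- A point in the part with the flow in the relative interior of the face. -/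
noncomputable def pA : E3 := ![-3/8, 1/8, 0]

/-- A point in the part outside the face. -/
noncomputable def pB : E3 := ![13/16, 1/16, 0]

theorem pA_mem : pA ∈ openPrism ∧ W pA < 0 := by
  simp only [openPrism, D, W, pA, Set.mem_ofPred_eq]
  have h2 : ∀ a b c : ℝ, (![a, b, c] : E3) 2 = c := fun _ _ _ => rfl
  norm_num [Matrix.cons_val_zero, Matrix.cons_val_one, h2]

theorem pB_mem : pB ∈ openPrism ∧ 0 < W pB ∧ 1 / 2 < D pB := by
  simp only [openPrism, D, W, pB, Set.mem_ofPred_eq]
  have h2 : ∀ a b c : ℝ, (![a, b, c] : E3) 2 = c := fun _ _ _ => rfl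
  norm_num [Matrix.cons_val_zero, Matrix.cons_val_one, h2]

theorem nonempty_interior_prism : (interior prism).Nonempty :=
  ⟨pA, interior_maximal openPrism_sub isOpen_openPrism pA_mem.1⟩

theorem closure_interior_prism : closure (interior prism) = prism := by
  rw [convex_prism.closure_interior_eq_closure_of_nonempty_interior nonempty_interior_prism,
    isClosed_prism.closure_eq]

theorem isConnected_interior_prism : IsConnected (interior prism) :=
  ⟨nonempty_interior_prism, convex_prism.interior.isPreconnected⟩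

theorem null_frontier_prism : volume (frontier prism) = 0 := convex_prism.addHaar_frontier volume

theorem volA_pos : 0 < volume {x | x ∈ prism ∧ W x < 0} := by
  have hopen : IsOpen (openPrism ∩ {x | W x < 0}) :=
    isOpen_openPrism.inter (isOpen_lt continuous_W continuous_const)
  refine lt_of_lt_of_le (hopen.measure_pos volume ⟨pA, pA_mem⟩) (measure_mono ?_)
  rintro x ⟨h1, h2⟩
  exact ⟨openPrism_sub h1, h2⟩

theorem volB_pos : 0 < volume {x | x ∈ prism ∧ 0 < W x ∧ 1 / 2 < D x} := by
  have hopen : IsOpen (openPrism ∩ ({x | 0 < W x} ∩ {x | 1 / 2 < D x})) :=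
    isOpen_openPrism.inter ((isOpen_lt continuous_const continuous_W).inter
      (isOpen_lt continuous_const continuous_D))
  refine lt_of_lt_of_le (hopen.measure_pos volume ⟨pB, pB_mem⟩) (measure_mono ?_)
  rintro x ⟨h1, h2⟩
  exact ⟨openPrism_sub h1, h2⟩

/-! ### The flow `g0` -/

theorem g0_neg {x : E3} (h : W x < 0) : g0 x = fun _ => 1 / 3 := by
  unfold g0
  rw [if_pos (by exact h)]

theorem g0_mid {x : E3} (h : 0 ≤ W x) (h' : D x < 1 / 2) : g0 x = Pi.single 0 1 := by
  unfold g0
  rw [if_neg (by exact not_lt.2 h), if_pos (by exact h')]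

theorem g0_top {x : E3} (h : 0 ≤ W x) (h' : 1 / 2 ≤ D x) : g0 x = - Pi.single 1 1 := by
  unfold g0
  rw [if_neg (by exact not_lt.2 h), if_neg (by exact not_lt.2 h')]

theorem measurable_g0 : Measurable g0 := by
  unfold g0
  refine Measurable.ite ?_ measurable_const (Measurable.ite ?_ measurable_const measurable_const)
  · exact (isOpen_lt continuous_W continuous_const).measurableSet
  · exact (isOpen_lt continuous_D continuous_const).measurableSet

theorem g0_oct (x : E3) : g0 x ∈ Oct := by
  unfold Oct
  by_cases h : W x < 0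
  · rw [g0_neg h]
    simp only [Set.mem_ofPred_eq]
    norm_num [abs_of_pos]
  · by_cases h' : D x < 1 / 2
    · rw [g0_mid (not_lt.1 h) h']
      simp
    · rw [g0_top (not_lt.1 h) (not_lt.1 h')]
      simp

theorem isCompact_Oct : IsCompact Oct := by
  apply Metric.isCompact_of_isClosed_isBounded
  · unfold Oct
    exact isClosed_le (by fun_prop) continuous_const
  · rw [isBounded_iff_forall_norm_le]
    refine ⟨1, fun x hx => (pi_norm_le_iff_of_nonneg (by norm_num)).2 (fun i => ?_)⟩
    unfold Oct at hx
    simp only [Set.mem_ofPred_eq] at hx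
    have h0 := abs_nonneg (x 0)
    have h1 := abs_nonneg (x 1)
    have h2 := abs_nonneg (x 2)
    rw [Real.norm_eq_abs]
    fin_cases i
    · simp only [Fin.zero_eta]; linarith
    · simp only [Fin.mk_one]; linarith
    · simp only [Fin.reduceFinMk]; linarith

end Pool.Agent.H265R3.DF
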