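import Pool.Agent.H265R3.DF.Geo

namespace Pool.Agent.H265R3.DF

open MeasureTheory Filter Topology Set

/-- A `C¹` function of one variable vanishing exactly on `[0, ∞)`. -/
noncomputable def q (w : ℝ) : ℝ := (min w 0) ^ 2

theorem q_deriv (w : ℝ) : HasDerivAt q (2 * min w 0) w := by
  rcases lt_trichotomy w 0 with h | h | h
  · have h1 : HasDerivAt (fun w : ℝ => w ^ 2) (2 * w) w := by
      simpa using hasDerivAt_pow 2 w
    rw [min_eq_left h.le]
    refine h1.congr_of_eventuallyEq ?_
    filter_upwards [Iio_mem_nhds h] with y hy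
    unfold q
    rw [min_eq_left (le_of_lt hy)]
  · subst h
    rw [min_self, mul_zero, hasDerivAt_iff_isLittleO_nhds_zero]
    have h1 : (fun h : ℝ => q (0 + h) - q 0 - h • (0 : ℝ)) = fun h => (min h 0) ^ 2 := by
      ext h
      simp [q]
    rw [h1]
    have h2 : (fun h : ℝ => (min h 0) ^ 2) =O[𝓝 0] fun h : ℝ => h ^ 2 := by
      refine Asymptotics.isBigO_of_le _ (fun h => ?_)
      rw [Real.norm_eq_abs, Real.norm_eq_abs, abs_of_nonneg (sq_nonneg _),
        abs_of_nonneg (sq_nonneg _)]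
      rcases le_total h 0 with h' | h'
      · rw [min_eq_left h']
      · rw [min_eq_right h']
        simp
        positivity
    refine h2.trans_isLittleO ?_
    have := Asymptotics.isLittleO_pow_pow (𝕜 := ℝ) (m := 1) (n := 2) (by norm_num)
    simpa using this
  · rw [min_eq_right h.le, mul_zero]
    refine (hasDerivAt_const w (0 : ℝ)).congr_of_eventuallyEq ?_
    filter_upwards [Ioi_mem_nhds h] with y hy
    unfold q
    rw [min_eq_right (le_of_lt hy)]
    ring

theorem q_contDiff : ContDiff ℝ 1 q := by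
  rw [contDiff_one_iff_deriv]
  refine ⟨fun w => (q_deriv w).differentiableAt, ?_⟩
  have : deriv q = fun w => 2 * min w 0 := by
    ext w; exact (q_deriv w).deriv
  rw [this]
  fun_prop

theorem q_nonneg (w : ℝ) : 0 ≤ q w := sq_nonneg _

theorem q_of_nonneg {w : ℝ} (h : 0 ≤ w) : q w = 0 := by
  unfold q; rw [min_eq_right h]; ring

theorem q_pos {w : ℝ} (h : w < 0) : 0 < q w := by
  unfold q; rw [min_eq_left h.le]; nlinarith

/-- `W` as a continuous linear map. -/
noncomputable def Wc : E3 →L[ℝ] ℝ := LinearMap.toContinuousLinearMap WL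

theorem Wc_apply (x : E3) : Wc x = W x := rfl

theorem W_hasFDerivAt (x : E3) : HasFDerivAt W Wc x := Wc.hasFDerivAt

theorem W_contDiff : ContDiff ℝ 1 W := Wc.contDiff

/-! ### Integrability -/

/-- A field with values in the octahedron. -/
structure Adm (g : E3 → E3) : Prop where
  meas : Measurable g
  oct : ∀ᵐ x ∂(volume.restrict prism), g x ∈ Oct

theorem adm_g0 : Adm g0 := ⟨measurable_g0, Eventually.of_forall g0_oct⟩

theorem oct_coord {s : E3} (h : s ∈ Oct) (i : Fin 3) : |s i| ≤ 1 := by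
  unfold Oct at h
  simp only [Set.mem_ofPred_eq] at h
  have h0 := abs_nonneg (s 0)
  have h1 := abs_nonneg (s 1)
  have h2 := abs_nonneg (s 2)
  fin_cases i
  · simp only [Fin.zero_eta]; linarith
  · simp only [Fin.mk_one]; linarith
  · simp only [Fin.reduceFinMk]; linarith

theorem oct_norm {s : E3} (h : s ∈ Oct) : ‖s‖ ≤ 1 :=
  (pi_norm_le_iff_of_nonneg (by norm_num)).2 (fun i => by
    rw [Real.norm_eq_abs]; exact oct_coord h i)

theorem prism_finite : volume prism < ⊤ := isCompact_prism.measure_lt_top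

/-- Bounded measurable functions are integrable on subsets of the prism. -/
theorem integrable_prism {f : E3 → ℝ} (hf : AEStronglyMeasurable f (volume.restrict prism)) (C : ℝ)
    (hb : ∀ᵐ x ∂(volume.restrict prism), ‖f x‖ ≤ C) : IntegrableOn f prism :=
  haveI : IsFiniteMeasure (volume.restrict prism) := ⟨by
    rw [Measure.restrict_apply_univ]; exact prism_finite⟩
  Integrable.of_bound hf C hb

theorem measurable_fd {φ : E3 → ℝ} (hφ : ContDiff ℝ 1 φ) {g : E3 → E3} (hg : Measurable g) :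
    Measurable (fun x => fderiv ℝ φ x (g x)) := by
  have h : (fun x => fderiv ℝ φ x (g x)) =
      fun x => ∑ i : Fin 3, g x i * fderiv ℝ φ x (Pi.single i 1) := by
    ext x
    conv_lhs => rw [pi_eq_sum_univ' (g x)]
    rw [map_sum]
    refine Finset.sum_congr rfl (fun i _ => ?_)
    rw [map_smul, smul_eq_mul]
  rw [h]
  refine Finset.measurable_sum _ (fun i _ => ?_)
  refine ((measurable_pi_apply i).comp hg).mul ?_
  have h1 : Continuous (fun x => fderiv ℝ φ x) := hφ.continuous_fderiv one_ne_zero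
  exact (h1.clm_apply continuous_const).measurable

theorem bound_fd {φ : E3 → ℝ} (hφ : ContDiff ℝ 1 φ) :
    ∃ C : ℝ, 0 ≤ C ∧ ∀ x ∈ prism, ‖fderiv ℝ φ x‖ ≤ C := by
  have h1 : Continuous (fun x => ‖fderiv ℝ φ x‖) := (hφ.continuous_fderiv one_ne_zero).norm
  obtain ⟨C, hC⟩ := isCompact_prism.bddAbove_image h1.continuousOn
  refine ⟨max C 0, le_max_right _ _, fun x hx => ?_⟩
  exact le_trans (hC ⟨x, hx, rfl⟩) (le_max_left _ _)

theorem bound_fd_g {φ : E3 → ℝ} (hφ : ContDiff ℝ 1 φ) {g : E3 → E3} (hg : Adm g) :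
    ∃ C : ℝ, 0 ≤ C ∧ ∀ᵐ x ∂(volume.restrict prism), ‖fderiv ℝ φ x (g x)‖ ≤ C := by
  obtain ⟨C, hC0, hC⟩ := bound_fd hφ
  refine ⟨C, hC0, ?_⟩
  filter_upwards [hg.oct, ae_restrict_mem isClosed_prism.measurableSet] with x hx hxR
  calc ‖fderiv ℝ φ x (g x)‖ ≤ ‖fderiv ℝ φ x‖ * ‖g x‖ := ContinuousLinearMap.le_opNorm _ _
    _ ≤ C * 1 := mul_le_mul (hC x hxR) (oct_norm hx) (norm_nonneg _) hC0
    _ = C := mul_one C

theorem integrable_fd {φ : E3 → ℝ} (hφ : ContDiff ℝ 1 φ) {g : E3 → E3} (hg : Adm g) :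
    IntegrableOn (fun x => fderiv ℝ φ x (g x)) prism := by
  obtain ⟨C, -, hC⟩ := bound_fd_g hφ hg
  exact integrable_prism (measurable_fd hφ hg.meas).aestronglyMeasurable C hC

/-! ### Step 1: the part below the plane `W = 0` -/

variable {g : E3 → E3}

theorem fd_comp_W {h : ℝ → ℝ} {h' : ℝ} {x : E3} (hh : HasDerivAt h h' (W x)) (v : E3) :
    fderiv ℝ (fun y => h (W y)) x v = h' * W v := by
  have h1 : HasFDerivAt (fun y => h (W y)) (h' • Wc) x := hh.comp_hasFDerivAt x (W_hasFDerivAt x)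
  rw [h1.fderiv]
  simp [Wc_apply]

theorem W_le_one {s : E3} (h : s ∈ Oct) : W s ≤ 1 := by
  unfold Oct at h
  simp only [Set.mem_ofPred_eq] at h
  unfold W
  linarith [le_abs_self (s 0), le_abs_self (s 1), le_abs_self (s 2)]

theorem D_le_one {s : E3} (h : s ∈ Oct) : D s ≤ 1 := by
  unfold Oct at h
  simp only [Set.mem_ofPred_eq] at h
  unfold D
  linarith [le_abs_self (s 0), neg_abs_le (s 1), abs_nonneg (s 2)]

theorem W_g0_neg {x : E3} (h : W x < 0) : W (g0 x) = 1 := by
  rw [g0_neg h]; unfold W; norm_num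

theorem step1 (hg : Adm g) (ht : SameTrace prism g g0) :
    ∀ᵐ x ∂(volume.restrict prism), W x < 0 → W (g x) = 1 := by
  have hφ : ContDiff ℝ 1 (fun x => q (W x)) := q_contDiff.comp W_contDiff
  have h1 := ht _ hφ
  have i1 := integrable_fd hφ hg
  have i2 := integrable_fd hφ adm_g0
  have h2 : ∫ x in prism, (fderiv ℝ (fun x => q (W x)) x (g x) -
      fderiv ℝ (fun x => q (W x)) x (g0 x)) = 0 := by
    rw [integral_sub i1 i2, h1, sub_self]
  have h3 : 0 ≤ᵐ[volume.restrict prism] fun x => (fderiv ℝ (fun x => q (W x)) x (g x) -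
      fderiv ℝ (fun x => q (W x)) x (g0 x)) := by
    filter_upwards [hg.oct] with x hx
    simp only [Pi.zero_apply]
    rw [fd_comp_W (q_deriv _), fd_comp_W (q_deriv _)]
    by_cases hw : W x < 0
    · rw [W_g0_neg hw, min_eq_left hw.le]
      have := W_le_one hx
      nlinarith
    · rw [min_eq_right (not_lt.1 hw)]
      simp
  have h4 := (integral_eq_zero_iff_of_nonneg_ae h3 (i1.sub i2)).1 h2
  filter_upwards [h4] with x hx hw
  simp only [Pi.zero_apply] at hx
  rw [fd_comp_W (q_deriv _), fd_comp_W (q_deriv _), W_g0_neg hw, min_eq_left hw.le] at hx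
  have : 2 * W x * (W (g x) - 1) = 0 := by linarith
  have hne : 2 * W x ≠ 0 := by
    intro h; linarith
  have := (mul_eq_zero.1 this).resolve_left hne
  linarith

/-! ### Step 2: decoupling -/

/-- cutoffs -/
noncomputable def eta (k : ℕ) (w : ℝ) : ℝ := (1 + k * q w)⁻¹

theorem eta_den (k : ℕ) (w : ℝ) : 0 < 1 + k * q w := by
  have := q_nonneg w
  positivity

theorem eta_deriv (k : ℕ) (w : ℝ) :
    HasDerivAt (eta k) (-(k * (2 * min w 0)) / (1 + k * q w) ^ 2) w := by
  have h1 : HasDerivAt (fun w => 1 + k * q w) (k * (2 * min w 0)) w :=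
    ((q_deriv w).const_mul (k : ℝ)).const_add 1
  exact h1.inv (eta_den k w).ne'

theorem eta_contDiff (k : ℕ) : ContDiff ℝ 1 (eta k) := by
  refine ContDiff.inv ?_ (fun w => (eta_den k w).ne')
  exact contDiff_const.add (contDiff_const.mul q_contDiff)

theorem eta_nonneg (k : ℕ) (w : ℝ) : 0 ≤ eta k w := (inv_pos.2 (eta_den k w)).le

theorem eta_le_one (k : ℕ) (w : ℝ) : eta k w ≤ 1 := by
  unfold eta
  refine inv_le_one_of_one_le₀ ?_
  have := q_nonneg w
  have h2 : (0 : ℝ) ≤ k := Nat.cast_nonneg k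
  nlinarith

open Classical in
theorem eta_lim (w : ℝ) : Tendsto (fun k => eta k w) atTop (𝓝 (if w < 0 then 0 else 1)) := by
  by_cases h : w < 0
  · rw [if_pos h]
    unfold eta
    refine Tendsto.inv_tendsto_atTop ?_
    refine tendsto_atTop_add_const_left _ _ ?_
    exact (tendsto_natCast_atTop_atTop).atTop_mul_const (q_pos h)
  · rw [if_neg h]
    have : (fun k => eta k w) = fun _ => 1 := by
      ext k
      unfold eta
      rw [q_of_nonneg (not_lt.1 h)]
      simp
    rw [this]
    exact tendsto_const_nhds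

theorem fd_eta {φ : E3 → ℝ} (hφ : ContDiff ℝ 1 φ) (k : ℕ) (x v : E3) :
    fderiv ℝ (fun y => eta k (W y) * φ y) x v =
      eta k (W x) * fderiv ℝ φ x v +
        φ x * ((-(k * (2 * min (W x) 0)) / (1 + k * q (W x)) ^ 2) * W v) := by
  have h1 : HasFDerivAt (fun y => eta k (W y))
      ((-(k * (2 * min (W x) 0)) / (1 + k * q (W x)) ^ 2) • Wc) x :=
    (eta_deriv k (W x)).comp_hasFDerivAt x (W_hasFDerivAt x)
  have h2 : HasFDerivAt φ (fderiv ℝ φ x) x :=
    (hφ.differentiable (by norm_num) x).hasFDerivAt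
  have h3 : HasFDerivAt (fun y => eta k (W y) * φ y) _ x := h1.mul h2
  rw [h3.fderiv]
  simp [Wc_apply]

open Classical in
theorem decouple (hg : Adm g) (ht : SameTrace prism g g0) {φ : E3 → ℝ} (hφ : ContDiff ℝ 1 φ) :
    ∫ x in prism, (if W x < 0 then 0 else (fderiv ℝ φ x (g x) - fderiv ℝ φ x (g0 x))) = 0 := by
  have hs1 := step1 hg ht
  have key : ∀ k : ℕ, ∫ x in prism,
      eta k (W x) * (fderiv ℝ φ x (g x) - fderiv ℝ φ x (g0 x)) = 0 := by
    intro k
    have hφk : ContDiff ℝ 1 (fun y => eta k (W y) * φ y) :=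
      ((eta_contDiff k).comp W_contDiff).mul hφ
    have h1 := ht _ hφk
    have i1 := integrable_fd hφk hg
    have i2 := integrable_fd hφk adm_g0
    have h2 : ∫ x in prism, (fderiv ℝ (fun y => eta k (W y) * φ y) x (g x) -
        fderiv ℝ (fun y => eta k (W y) * φ y) x (g0 x)) = 0 := by
      rw [integral_sub i1 i2, h1, sub_self]
    rw [← h2]
    refine integral_congr_ae ?_
    filter_upwards [hs1] with x hx
    rw [fd_eta hφ, fd_eta hφ]
    by_cases hw : W x < 0
    · rw [hx hw, W_g0_neg hw]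
      ring
    · rw [min_eq_right (not_lt.1 hw)]
      simp
      ring
  obtain ⟨C, hC0, hC⟩ := bound_fd_g hφ hg
  obtain ⟨C', hC0', hC'⟩ := bound_fd_g hφ adm_g0
  have hlim : Tendsto (fun k : ℕ => ∫ x in prism,
      eta k (W x) * (fderiv ℝ φ x (g x) - fderiv ℝ φ x (g0 x))) atTop
      (𝓝 (∫ x in prism, (if W x < 0 then 0 else
        (fderiv ℝ φ x (g x) - fderiv ℝ φ x (g0 x))))) := by
    refine tendsto_integral_of_dominated_convergence (fun _ => C + C') ?_ ?_ ?_ ?_
    · intro k
      refine Measurable.aestronglyMeasurable ?_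
      exact (((eta_contDiff k).continuous.measurable).comp continuous_W.measurable).mul
        ((measurable_fd hφ hg.meas).sub (measurable_fd hφ measurable_g0))
    · have : IntegrableOn (fun _ : E3 => C + C') prism :=
        integrable_prism aestronglyMeasurable_const (C + C')
          (Eventually.of_forall (fun x => by
            rw [Real.norm_eq_abs, abs_of_nonneg (by linarith)]))
      exact this
    · intro k
      filter_upwards [hC, hC'] with x hx hx'
      rw [norm_mul, Real.norm_eq_abs, abs_of_nonneg (eta_nonneg k _)]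
      calc eta k (W x) * ‖fderiv ℝ φ x (g x) - fderiv ℝ φ x (g0 x)‖
          ≤ 1 * (‖fderiv ℝ φ x (g x)‖ + ‖fderiv ℝ φ x (g0 x)‖) :=
            mul_le_mul (eta_le_one k _) (norm_sub_le _ _) (norm_nonneg _) (by norm_num)
        _ ≤ C + C' := by linarith
    · refine Eventually.of_forall (fun x => ?_)
      have := (eta_lim (W x)).mul_const (fderiv ℝ φ x (g x) - fderiv ℝ φ x (g0 x))
      by_cases hw : W x < 0
      · rw [if_pos hw] at this ⊢
        simpa using this
      · rw [if_neg hw] at this ⊢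
        simpa using this
  have : (fun k : ℕ => ∫ x in prism,
      eta k (W x) * (fderiv ℝ φ x (g x) - fderiv ℝ φ x (g0 x))) = fun _ => 0 := by
    ext k; exact key k
  rw [this] at hlim
  exact (tendsto_nhds_unique hlim tendsto_const_nhds)

end Pool.Agent.H265R3.DF
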