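import Pool.Agent.H265R3.DF.Final

/-!
# The second example: the flow is the only asymptotic flow with its trace
-/

namespace Pool.Agent.H265R3.DF

open MeasureTheory Filter Topology Set

theorem g1_low {x : E3} (h : D x < 1 / 2) : g1 x = Pi.single 0 1 := by
  unfold g1; rw [if_pos (by exact h)]

theorem g1_high {x : E3} (h : 1 / 2 ≤ D x) : g1 x = - Pi.single 1 1 := by
  unfold g1; rw [if_neg (by exact not_lt.2 h)]

theorem measurable_g1 : Measurable g1 := by
  unfold g1
  refine Measurable.ite ?_ measurable_const measurable_const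
  exact (isOpen_lt continuous_D continuous_const).measurableSet

theorem g1_oct (x : E3) : g1 x ∈ Oct := by
  unfold Oct
  by_cases h' : D x < 1 / 2
  · rw [g1_low h']
    simp
  · rw [g1_high (not_lt.1 h')]
    simp

theorem adm_g1 : Adm g1 := ⟨measurable_g1, Eventually.of_forall g1_oct⟩

theorem D_g1 (x : E3) : D (g1 x) = 1 := by
  by_cases h' : D x < 1 / 2
  · rw [g1_low h']; simp [D]
  · rw [g1_high (not_lt.1 h')]; simp [D]

variable {g : E3 → E3}

theorem rigid1 (hg : Adm g) (ht : SameTrace prism g g1) :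
    g =ᵐ[volume.restrict prism] g1 := by
  -- first test function
  have hφ : ContDiff ℝ 1 D := Dc.contDiff
  have h1 := ht _ hφ
  have i1 := integrable_fd hφ hg
  have i2 := integrable_fd hφ adm_g1
  have h2 : 0 ≤ᵐ[volume.restrict prism] fun x => fderiv ℝ D x (g1 x) - fderiv ℝ D x (g x) := by
    filter_upwards [hg.oct] with x hx
    simp only [Pi.zero_apply]
    rw [fd_D, fd_D, D_g1]
    have := D_le_one hx
    linarith
  have h3 := (integral_eq_zero_iff_of_nonneg_ae h2 (i2.sub i1)).1 (by
    rw [integral_sub i2 i1, h1, sub_self])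
  have hD : ∀ᵐ x ∂(volume.restrict prism), D (g x) = 1 := by
    filter_upwards [h3] with x hx
    simp only [Pi.zero_apply] at hx
    rw [fd_D, fd_D, D_g1] at hx
    linarith
  -- second test function
  have hψ : ContDiff ℝ 1 (fun y : E3 => P y * (D y - 1 / 2)) := by
    have k1 : ContDiff ℝ 1 P := Pc.contDiff
    have k2 : ContDiff ℝ 1 D := Dc.contDiff
    exact k1.mul (k2.sub contDiff_const)
  have l1 := ht _ hψ
  have j1 := integrable_fd hψ hg
  have j2 := integrable_fd hψ adm_g1
  have l2 : 0 ≤ᵐ[volume.restrict prism] fun x =>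
      fderiv ℝ (fun y : E3 => P y * (D y - 1 / 2)) x (g x) -
        fderiv ℝ (fun y : E3 => P y * (D y - 1 / 2)) x (g1 x) := by
    filter_upwards [hg.oct, hD] with x hx hDx
    simp only [Pi.zero_apply]
    rw [fd_quad, fd_quad, D_g1, hDx]
    have hb := P_bounds hx
    by_cases hd : D x < 1 / 2
    · have : P (g1 x) = 1 := by rw [g1_low hd]; simp [P]
      rw [this]
      nlinarith
    · have : P (g1 x) = -1 := by rw [g1_high (not_lt.1 hd)]; simp [P]
      rw [this]
      nlinarith
  have l3 := (integral_eq_zero_iff_of_nonneg_ae l2 (j1.sub j2)).1 (by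
    rw [integral_sub j1 j2, l1, sub_self])
  have h4 : ∀ᵐ x ∂(volume.restrict prism), D x ≠ 1 / 2 := by
    refine ae_restrict_of_ae ?_
    rw [ae_iff]
    simpa using null_D (1 / 2)
  filter_upwards [l3, h4, hD, hg.oct] with x hx hne hDx hoct
  simp only [Pi.zero_apply] at hx
  rw [fd_quad, fd_quad, D_g1, hDx] at hx
  have h5 : (D x - 1 / 2) * (P (g x) - P (g1 x)) = 0 := by linarith
  have h6 : P (g x) = P (g1 x) := by
    have := (mul_eq_zero.1 h5).resolve_left (sub_ne_zero.2 hne)
    linarith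
  have h7 : D (g x) = D (g1 x) := by rw [D_g1, hDx]
  have h8 : D (g x) = 1 := hDx
  unfold P at h6
  unfold D at h7 h8
  have e0 : g x 0 = g1 x 0 := by linarith
  have e1 : g x 1 = g1 x 1 := by linarith
  have e2 : g x 2 = 0 := by
    unfold Oct at hoct
    simp only [Set.mem_ofPred_eq] at hoct
    have := le_abs_self (g x 0)
    have := neg_abs_le (g x 1)
    have : |g x 2| ≤ 0 := by linarith
    exact abs_nonpos_iff.1 this
  have e3 : g1 x 2 = 0 := by
    by_cases hd : D x < 1 / 2
    · rw [g1_low hd]; simp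
    · rw [g1_high (not_lt.1 hd)]; simp
  ext i
  fin_cases i
  · exact e0
  · exact e1
  · change g x 2 = g1 x 2
    rw [e2, e3]

/-! ### The tiling -/

open Classical in
/-- The partner map. -/
noncomputable def m1 (n : ℕ) (v : Z3) : Z3 :=
  if IsEven v then
    if 2 * ld v < n then v + Pi.single 0 1 else v + Pi.single 1 (-1)
  else
    if 2 * (ld v - 1) < n then v - Pi.single 0 1 else v + Pi.single 1 1

theorem m1_e1 {n : ℕ} {v : Z3} (h : IsEven v) (h2 : 2 * ld v < n) :
    m1 n v = v + Pi.single 0 1 := by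
  unfold m1; rw [if_pos h, if_pos h2]

theorem m1_e2 {n : ℕ} {v : Z3} (h : IsEven v) (h2 : ¬ 2 * ld v < n) :
    m1 n v = v + Pi.single 1 (-1) := by
  unfold m1; rw [if_pos h, if_neg h2]

theorem m1_o1 {n : ℕ} {v : Z3} (h : ¬ IsEven v) (h2 : 2 * (ld v - 1) < n) :
    m1 n v = v - Pi.single 0 1 := by
  unfold m1; rw [if_neg h, if_pos h2]

theorem m1_o2 {n : ℕ} {v : Z3} (h : ¬ IsEven v) (h2 : ¬ 2 * (ld v - 1) < n) :
    m1 n v = v + Pi.single 1 1 := by
  unfold m1; rw [if_neg h, if_neg h2]

theorem m1_inv (n : ℕ) (v : Z3) : m1 n (m1 n v) = v := by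
  by_cases he : IsEven v
  · have he' : lw v % 2 = 0 := Int.even_iff.1 he
    by_cases h2 : 2 * ld v < n
    · rw [m1_e1 he h2]
      have l1 : lw (v + Pi.single 0 1) = lw v + 1 := lw_add _ _ _
      have l2 : ld (v + Pi.single 0 1) = ld v + 1 := ld_add0 _ _
      have ho : ¬ IsEven (v + Pi.single 0 1) := by
        rw [isEven_iff, l1, Int.even_iff]; omega
      rw [m1_o1 ho (by omega)]
      simp
    · rw [m1_e2 he h2]
      have l1 : lw (v + Pi.single 1 (-1)) = lw v + (-1) := lw_add _ _ _
      have l2 : ld (v + Pi.single 1 (-1)) = ld v - (-1) := ld_add1 _ _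
      have ho : ¬ IsEven (v + Pi.single 1 (-1)) := by
        rw [isEven_iff, l1, Int.even_iff]; omega
      rw [m1_o2 ho (by omega), add_assoc, ← Pi.single_add]
      simp
  · have he' : lw v % 2 ≠ 0 := fun h => he (Int.even_iff.2 h)
    by_cases h2 : 2 * (ld v - 1) < n
    · rw [m1_o1 he h2]
      have l1 : lw (v - Pi.single 0 1) = lw v - 1 := lw_sub _ _ _
      have l2 : ld (v - Pi.single 0 1) = ld v - 1 := ld_sub0 _ _
      have ho : IsEven (v - Pi.single 0 1) := by
        rw [isEven_iff, l1, Int.even_iff]; omega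
      rw [m1_e1 ho (by omega)]
      simp
    · rw [m1_o2 he h2]
      have l1 : lw (v + Pi.single 1 1) = lw v + 1 := lw_add _ _ _
      have l2 : ld (v + Pi.single 1 1) = ld v - 1 := ld_add1 _ _
      have ho : IsEven (v + Pi.single 1 1) := by
        rw [isEven_iff, l1, Int.even_iff]; omega
      rw [m1_e2 ho (by omega), add_assoc, ← Pi.single_add]
      simp

theorem m1_adj (n : ℕ) (v : Z3) :
    ∃ i : Fin 3, m1 n v = v + Pi.single i 1 ∨ m1 n v = v - Pi.single i 1 := by
  by_cases he : IsEven v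
  · by_cases h2 : 2 * ld v < n
    · exact ⟨_, Or.inl (m1_e1 he h2)⟩
    · refine ⟨1, Or.inr ?_⟩
      rw [m1_e2 he h2, Pi.single_neg, sub_eq_add_neg]
  · by_cases h2 : 2 * (ld v - 1) < n
    · exact ⟨_, Or.inr (m1_o1 he h2)⟩
    · exact ⟨_, Or.inl (m1_o2 he h2)⟩

theorem m1_close (n : ℕ) (v : Z3) (i : Fin 3) : |v i| ≤ |m1 n v i| + 1 := by
  have key : ∀ j : Fin 3, |(Pi.single j (1 : ℤ) : Z3) i| ≤ 1 := by
    intro j
    by_cases h : i = j
    · subst h; simp
    · rw [Pi.single_eq_of_ne h]; simp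
  obtain ⟨j, h | h⟩ := m1_adj n v
  · rw [h, Pi.add_apply]
    have : |v i| = |v i + (Pi.single j (1 : ℤ) : Z3) i - (Pi.single j (1 : ℤ) : Z3) i| := by
      congr 1; ring
    rw [this]
    exact (abs_sub _ _).trans (by linarith [key j])
  · rw [h, Pi.sub_apply]
    have : |v i| = |v i - (Pi.single j (1 : ℤ) : Z3) i + (Pi.single j (1 : ℤ) : Z3) i| := by
      congr 1; ring
    rw [this]
    exact (abs_add_le _ _).trans (by linarith [key j])

/-- The tiled set. -/
def A1 (n : ℕ) : Set Z3 := {v | sc n v ∈ prism ∨ sc n (m1 n v) ∈ prism}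

theorem A1_finite {n : ℕ} (hn : 1 ≤ n) : (A1 n).Finite := by
  refine (Set.finite_Icc (fun _ => -(2 * n + 1 : ℤ)) (fun _ => (2 * n + 1 : ℤ))).subset ?_
  intro v h
  have hb : ∀ i, |v i| ≤ 2 * n + 1 := by
    intro i
    rcases h with h | h
    · have := sc_mem_bound hn h i
      omega
    · have h1 := sc_mem_bound hn h i
      have h2 := m1_close n v i
      omega
  constructor
  · intro i; exact (abs_le.1 (hb i)).1
  · intro i; exact (abs_le.1 (hb i)).2

theorem tiling1 {n : ℕ} (hn : 1 ≤ n) : IsTiling (A1 n) (m1 n) := by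
  refine ⟨A1_finite hn, ?_, fun v _ => m1_adj n v, fun v _ => m1_inv n v⟩
  intro v hv
  rcases hv with h | h
  · right; rw [m1_inv]; exact h
  · left; exact h

open Classical in
/-- The limit of the summand. -/
noncomputable def L1 (φ : E3 → E3) (x : E3) (ρ : Fin 3 → Fin 6) : ℝ :=
  if Even (sr ρ) then
    (if x ∈ prism then (if D x < 1 / 2 then φ x 0 else - φ x 1) else 0)
  else 0

theorem sum_L1 (φ : E3 → E3) (x : E3) :
    ∑ ρ, L1 φ x ρ = 108 * Set.indicator prism (fun x => dot (φ x) (g1 x)) x := by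
  unfold L1
  by_cases hx : x ∈ prism
  · rw [Set.indicator_of_mem hx]
    simp only [hx, if_true]
    by_cases hd : D x < 1 / 2
    · simp only [hd, if_true]
      rw [sum_even, g1_low hd]
      unfold dot
      rw [Fin.sum_univ_three]
      simp
    · simp only [hd, if_false]
      rw [sum_even, g1_high (not_lt.1 hd)]
      unfold dot
      rw [Fin.sum_univ_three]
      simp
  · rw [Set.indicator_of_notMem hx]
    simp [hx]

theorem KK_lim1 {φ : E3 → E3} (hφ : Continuous φ) {x : E3} (hfr : x ∉ frontier prism)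
    (hD : D x ≠ 1 / 2) (ρ : Fin 3 → Fin 6) :
    Tendsto (fun n : ℕ => KK m1 n φ (blk (fl (6 / n) x) ρ)) atTop (𝓝 (L1 φ x ρ)) := by
  have hy := sc_blk_lim x ρ
  set y : ℕ → Z3 := fun n => blk (fl (6 / n) x) ρ with hydef
  have hy' : Tendsto (fun n => sc n (y n)) atTop (𝓝 x) := hy
  by_cases he : Even (sr ρ)
  · by_cases hx : x ∈ prism
    · have hint : x ∈ interior prism := by
        by_contra h
        exact hfr ⟨subset_closure hx, h⟩
      have hev : ∀ᶠ n in atTop, sc n (y n) ∈ prism :=
        (hy'.eventually (isOpen_interior.mem_nhds hint)).mono (fun n h => interior_subset h)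
      have hKI : ∀ᶠ n in atTop, KI m1 n φ (y n) = KK m1 n φ (y n) := by
        filter_upwards [hev] with n hn
        exact (KK_of_mem m1 ((even_blk _ _).2 he) hn).symm
      have hLL : L1 φ x ρ = (if D x < 1 / 2 then φ x 0 else - φ x 1) := by
        unfold L1
        rw [if_pos he, if_pos hx]
      rw [hLL]
      by_cases hd : D x < 1 / 2
      · rw [if_pos hd]
        have hd' : ∀ᶠ n in atTop, D (sc n (y n)) < 1 / 2 :=
          ((continuous_D.tendsto x).comp hy').eventually (gt_mem_nhds hd)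
        have hm : ∀ᶠ n in atTop, m1 n (y n) = y n + Pi.single 0 1 := by
          filter_upwards [hd', eventually_ge_atTop 1] with n hn2 h1
          have hn' : (0 : ℝ) < n := by exact_mod_cast h1
          rw [D_sc, div_lt_iff₀ hn'] at hn2
          have h2 : 2 * (ld (y n) : ℝ) < (n : ℝ) := by linarith
          have h3 : 2 * ld (y n) < (n : ℤ) := by exact_mod_cast h2
          exact m1_e1 ((even_blk _ _).2 he) h3
        have := KI_lim hy' hφ 0 1 (Or.inl rfl) hm
        rw [Int.cast_one, one_mul] at this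
        exact this.congr' hKI
      · rw [if_neg hd]
        have hd0 : 1 / 2 < D x := lt_of_le_of_ne (not_lt.1 hd) (Ne.symm hD)
        have hd' : ∀ᶠ n in atTop, 1 / 2 < D (sc n (y n)) :=
          ((continuous_D.tendsto x).comp hy').eventually (lt_mem_nhds hd0)
        have hm : ∀ᶠ n in atTop, m1 n (y n) = y n + Pi.single 1 (-1) := by
          filter_upwards [hd', eventually_ge_atTop 1] with n hn2 h1
          have hn' : (0 : ℝ) < n := by exact_mod_cast h1
          rw [D_sc, lt_div_iff₀ hn'] at hn2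
          have h2 : (n : ℝ) < 2 * (ld (y n) : ℝ) := by linarith
          have h3 : (n : ℤ) < 2 * ld (y n) := by exact_mod_cast h2
          exact m1_e2 ((even_blk _ _).2 he) (by omega)
        have := KI_lim hy' hφ 1 (-1) (Or.inr rfl) hm
        rw [Int.cast_neg, Int.cast_one, neg_one_mul] at this
        exact this.congr' hKI
    · have hev : ∀ᶠ n in atTop, sc n (y n) ∉ prism :=
        hy'.eventually (isClosed_prism.isOpen_compl.mem_nhds hx)
      have hLL : L1 φ x ρ = 0 := by
        unfold L1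
        rw [if_pos he, if_neg hx]
      rw [hLL]
      refine tendsto_const_nhds.congr' ?_
      filter_upwards [hev] with n hn
      unfold KK
      rw [if_neg (fun h => hn h.2)]
  · have hLL : L1 φ x ρ = 0 := by
      unfold L1
      rw [if_neg he]
    rw [hLL]
    refine tendsto_const_nhds.congr (fun n => ?_)
    unfold KK
    rw [if_neg (fun h => he ((even_blk _ _).1 h.1))]

theorem isAF_g1 : IsAF prism g1 := by
  refine ⟨measurable_g1, Eventually.of_forall g1_oct, A1, m1, ?_, fun φ hφ => ?_⟩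
  · filter_upwards [eventually_ge_atTop 1] with n hn
    exact ⟨tiling1 hn, fun v hv => Or.inl hv⟩
  · refine pairing_lim_gen m1 g1 hφ (L1 φ) (sum_L1 φ) ?_
    filter_upwards [ae_good] with x hx ρ
    exact KK_lim1 hφ hx.1 hx.2.2 ρ

theorem entMax_g1 (ent : E3 → ℝ) : IsEntMax ent prism g1 := by
  refine ⟨isAF_g1, fun h hh ht => le_of_eq ?_⟩
  have h1 := rigid1 hh.adm ht
  unfold Ent
  congr 1
  refine integral_congr_ae ?_
  filter_upwards [h1] with x hx
  rw [hx]

theorem vol1_low : 0 < volume {x | x ∈ prism ∧ g1 x ∈ faceF} := by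
  refine lt_of_lt_of_le volA_pos (measure_mono ?_)
  rintro x ⟨h1, h2⟩
  refine ⟨h1, ?_⟩
  have hd : D x < 1 / 2 := by
    have := ((mem_prism x).1 h1).2.1
    have h2' : W x < 0 := h2
    linarith
  rw [g1_low hd]
  refine ⟨?_, by simp⟩
  unfold Oct
  simp

theorem vol1_high : 0 < volume {x | x ∈ prism ∧ g1 x ∉ faceF} := by
  refine lt_of_lt_of_le volB_pos (measure_mono ?_)
  rintro x ⟨h1, -, h2⟩
  refine ⟨h1, ?_⟩
  have h2' : 1 / 2 < D x := h2
  rw [g1_high h2'.le]
  rintro ⟨-, h⟩
  have h2 : (Pi.single (1 : Fin 3) (1 : ℝ) : E3) 2 = 0 := by simp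
  rw [Pi.neg_apply, Pi.neg_apply, Pi.neg_apply, h2, Pi.single_eq_same] at h
  norm_num at h

end Pool.Agent.H265R3.DF
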