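import Pool.Agent.H265R3.DF.Geo

namespace Pool.Agent.H265R3.DF

open MeasureTheory Filter Topology Set

/-- Lattice level. -/
def lw (v : Z3) : ℤ := v 0 + v 1 + v 2

/-- Lattice second function. -/
def ld (v : Z3) : ℤ := v 0 - v 1

theorem isEven_iff (v : Z3) : IsEven v ↔ Even (lw v) := Iff.rfl

theorem lw_add (v : Z3) (i : Fin 3) (s : ℤ) : lw (v + Pi.single i s) = lw v + s := by
  fin_cases i <;> simp [lw] <;> ring

theorem lw_sub (v : Z3) (i : Fin 3) (s : ℤ) : lw (v - Pi.single i s) = lw v - s := by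
  fin_cases i <;> simp [lw] <;> ring

theorem ld_add0 (v : Z3) (s : ℤ) : ld (v + Pi.single 0 s) = ld v + s := by
  simp [ld]; ring

theorem ld_sub0 (v : Z3) (s : ℤ) : ld (v - Pi.single 0 s) = ld v - s := by
  simp [ld]; ring

theorem ld_add1 (v : Z3) (s : ℤ) : ld (v + Pi.single 1 s) = ld v - s := by
  simp [ld]; ring

/-- The direction used at the level `w`. -/
def jj (w : ℤ) : Fin 3 := if w % 6 = 0 then 0 else if w % 6 = 2 then 1 else 2

open Classical in
/-- The partner map. -/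
noncomputable def mm (n : ℕ) (v : Z3) : Z3 :=
  if IsEven v then
    if lw v < 0 then v + Pi.single (jj (lw v)) 1
    else if 2 * ld v < n then v + Pi.single 0 1
    else v + Pi.single 1 (-1)
  else
    if lw v < 0 then v - Pi.single (jj (lw v - 1)) 1
    else if 2 * (ld v - 1) < n then v - Pi.single 0 1
    else v + Pi.single 1 1

/-- The good set. -/
def good (n : ℕ) (v : Z3) : Prop := ¬ (IsEven v ∧ lw v = 0 ∧ (n : ℤ) ≤ 2 * ld v)

theorem mm_e1 {n : ℕ} {v : Z3} (h : IsEven v) (h1 : lw v < 0) :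
    mm n v = v + Pi.single (jj (lw v)) 1 := by
  unfold mm; rw [if_pos h, if_pos h1]

theorem mm_e2 {n : ℕ} {v : Z3} (h : IsEven v) (h1 : ¬ lw v < 0) (h2 : 2 * ld v < n) :
    mm n v = v + Pi.single 0 1 := by
  unfold mm; rw [if_pos h, if_neg h1, if_pos h2]

theorem mm_e3 {n : ℕ} {v : Z3} (h : IsEven v) (h1 : ¬ lw v < 0) (h2 : ¬ 2 * ld v < n) :
    mm n v = v + Pi.single 1 (-1) := by
  unfold mm; rw [if_pos h, if_neg h1, if_neg h2]

theorem mm_o1 {n : ℕ} {v : Z3} (h : ¬ IsEven v) (h1 : lw v < 0) :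
    mm n v = v - Pi.single (jj (lw v - 1)) 1 := by
  unfold mm; rw [if_neg h, if_pos h1]

theorem mm_o2 {n : ℕ} {v : Z3} (h : ¬ IsEven v) (h1 : ¬ lw v < 0) (h2 : 2 * (ld v - 1) < n) :
    mm n v = v - Pi.single 0 1 := by
  unfold mm; rw [if_neg h, if_neg h1, if_pos h2]

theorem mm_o3 {n : ℕ} {v : Z3} (h : ¬ IsEven v) (h1 : ¬ lw v < 0) (h2 : ¬ 2 * (ld v - 1) < n) :
    mm n v = v + Pi.single 1 1 := by
  unfold mm; rw [if_neg h, if_neg h1, if_neg h2]

theorem mm_spec (n : ℕ) (v : Z3) (hg : good n v) : mm n (mm n v) = v ∧ good n (mm n v) := by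
  by_cases he : IsEven v
  · have he' : lw v % 2 = 0 := Int.even_iff.1 he
    by_cases h1 : lw v < 0
    · rw [mm_e1 he h1]
      have l1 : lw (v + Pi.single (jj (lw v)) 1) = lw v + 1 := lw_add _ _ _
      have ho : ¬ IsEven (v + Pi.single (jj (lw v)) 1) := by
        rw [isEven_iff, l1, Int.even_iff]; omega
      refine ⟨?_, fun h => ho h.1⟩
      rw [mm_o1 ho (by omega), l1]
      simp
    · by_cases h2 : 2 * ld v < n
      · rw [mm_e2 he h1 h2]
        have l1 : lw (v + Pi.single 0 1) = lw v + 1 := lw_add _ _ _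
        have l2 : ld (v + Pi.single 0 1) = ld v + 1 := ld_add0 _ _
        have ho : ¬ IsEven (v + Pi.single 0 1) := by
          rw [isEven_iff, l1, Int.even_iff]; omega
        refine ⟨?_, fun h => ho h.1⟩
        rw [mm_o2 ho (by omega) (by omega)]
        simp
      · rw [mm_e3 he h1 h2]
        have l1 : lw (v + Pi.single 1 (-1)) = lw v + (-1) := lw_add _ _ _
        have l2 : ld (v + Pi.single 1 (-1)) = ld v - (-1) := ld_add1 _ _
        have ho : ¬ IsEven (v + Pi.single 1 (-1)) := by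
          rw [isEven_iff, l1, Int.even_iff]; omega
        have hne : lw v ≠ 0 := fun h0 => hg ⟨he, h0, by omega⟩
        refine ⟨?_, fun h => ho h.1⟩
        rw [mm_o3 ho (by omega) (by omega), add_assoc, ← Pi.single_add]
        simp
  · have he' : lw v % 2 ≠ 0 := fun h => he (Int.even_iff.2 h)
    by_cases h1 : lw v < 0
    · rw [mm_o1 he h1]
      have l1 : lw (v - Pi.single (jj (lw v - 1)) 1) = lw v - 1 := lw_sub _ _ _
      have ho : IsEven (v - Pi.single (jj (lw v - 1)) 1) := by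
        rw [isEven_iff, l1, Int.even_iff]; omega
      refine ⟨?_, fun h => by have := h.2.1; omega⟩
      rw [mm_e1 ho (by omega), l1]
      simp
    · by_cases h2 : 2 * (ld v - 1) < n
      · rw [mm_o2 he h1 h2]
        have l1 : lw (v - Pi.single 0 1) = lw v - 1 := lw_sub _ _ _
        have l2 : ld (v - Pi.single 0 1) = ld v - 1 := ld_sub0 _ _
        have ho : IsEven (v - Pi.single 0 1) := by
          rw [isEven_iff, l1, Int.even_iff]; omega
        refine ⟨?_, fun h => by have := h.2.2; omega⟩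
        rw [mm_e2 ho (by omega) (by omega)]
        simp
      · rw [mm_o3 he h1 h2]
        have l1 : lw (v + Pi.single 1 1) = lw v + 1 := lw_add _ _ _
        have l2 : ld (v + Pi.single 1 1) = ld v - 1 := ld_add1 _ _
        have ho : IsEven (v + Pi.single 1 1) := by
          rw [isEven_iff, l1, Int.even_iff]; omega
        refine ⟨?_, fun h => by have := h.2.1; omega⟩
        rw [mm_e3 ho (by omega) (by omega), add_assoc, ← Pi.single_add]
        simp

theorem mm_adj (n : ℕ) (v : Z3) :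
    ∃ i : Fin 3, mm n v = v + Pi.single i 1 ∨ mm n v = v - Pi.single i 1 := by
  by_cases he : IsEven v
  · by_cases h1 : lw v < 0
    · exact ⟨_, Or.inl (mm_e1 he h1)⟩
    · by_cases h2 : 2 * ld v < n
      · exact ⟨_, Or.inl (mm_e2 he h1 h2)⟩
      · refine ⟨1, Or.inr ?_⟩
        rw [mm_e3 he h1 h2, Pi.single_neg, sub_eq_add_neg]
  · by_cases h1 : lw v < 0
    · exact ⟨_, Or.inr (mm_o1 he h1)⟩
    · by_cases h2 : 2 * (ld v - 1) < n
      · exact ⟨_, Or.inr (mm_o2 he h1 h2)⟩
      · exact ⟨_, Or.inl (mm_o3 he h1 h2)⟩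

theorem mm_close (n : ℕ) (v : Z3) (i : Fin 3) : |v i| ≤ |mm n v i| + 1 := by
  have key : ∀ j : Fin 3, |(Pi.single j (1 : ℤ) : Z3) i| ≤ 1 := by
    intro j
    by_cases h : i = j
    · subst h; simp
    · rw [Pi.single_eq_of_ne h]; simp
  obtain ⟨j, h | h⟩ := mm_adj n v
  · rw [h, Pi.add_apply]
    have h1 := key j
    rw [abs_le] at h1
    have : |v i| = |v i + (Pi.single j (1 : ℤ) : Z3) i - (Pi.single j (1 : ℤ) : Z3) i| := by
      congr 1; ring
    rw [this]
    exact (abs_sub _ _).trans (by linarith [key j])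
  · rw [h, Pi.sub_apply]
    have : |v i| = |v i - (Pi.single j (1 : ℤ) : Z3) i + (Pi.single j (1 : ℤ) : Z3) i| := by
      congr 1; ring
    rw [this]
    exact (abs_add_le _ _).trans (by linarith [key j])

theorem sc_mem_bound {n : ℕ} (hn : 1 ≤ n) {v : Z3} (h : sc n v ∈ prism) (i : Fin 3) :
    |v i| ≤ 2 * n := by
  have h1 := prism_bound h i
  unfold sc at h1
  have hn' : (0 : ℝ) < n := by exact_mod_cast hn
  rw [abs_div, abs_of_pos hn', div_le_iff₀ hn'] at h1
  have : ((|v i| : ℤ) : ℝ) ≤ ((2 * n : ℤ) : ℝ) := by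
    push_cast
    exact h1
  exact_mod_cast this

/-- The tiled set. -/
def AA (n : ℕ) : Set Z3 := {v | good n v ∧ (sc n v ∈ prism ∨ sc n (mm n v) ∈ prism)}

theorem AA_finite {n : ℕ} (hn : 1 ≤ n) : (AA n).Finite := by
  refine (Set.finite_Icc (fun _ => -(2 * n + 1 : ℤ)) (fun _ => (2 * n + 1 : ℤ))).subset ?_
  rintro v ⟨-, h⟩
  have hb : ∀ i, |v i| ≤ 2 * n + 1 := by
    intro i
    rcases h with h | h
    · have := sc_mem_bound hn h i
      omega
    · have h1 := sc_mem_bound hn h i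
      have h2 := mm_close n v i
      omega
  constructor
  · intro i; exact (abs_le.1 (hb i)).1
  · intro i; exact (abs_le.1 (hb i)).2

theorem W_sc (n : ℕ) (v : Z3) : W (sc n v) = (lw v : ℝ) / n := by
  unfold W sc lw; push_cast; ring

theorem D_sc (n : ℕ) (v : Z3) : D (sc n v) = (ld v : ℝ) / n := by
  unfold D sc ld; push_cast; ring

theorem good_of_mem {n : ℕ} (hn : 1 ≤ n) {v : Z3} (h : sc n v ∈ prism) : good n v := by
  rintro ⟨-, h0, h1⟩
  have h2 := ((mem_prism _).1 h).2.1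
  have hn' : (0 : ℝ) < n := by exact_mod_cast hn
  rw [W_sc, D_sc, div_le_div_iff_of_pos_right hn', h0] at h2
  have h3 : ld v ≤ 0 := by exact_mod_cast h2
  have h4 : (0 : ℤ) < n := by exact_mod_cast hn
  omega

theorem tiling {n : ℕ} (hn : 1 ≤ n) : IsTiling (AA n) (mm n) := by
  refine ⟨AA_finite hn, ?_, fun v _ => mm_adj n v, fun v hv => (mm_spec n v hv.1).1⟩
  intro v hv
  obtain ⟨h1, h2⟩ := mm_spec n v hv.1
  refine ⟨h2, ?_⟩
  rcases hv.2 with h | h
  · right; rw [h1]; exact h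
  · left; exact h

theorem covers {n : ℕ} (hn : 1 ≤ n) (v : Z3) (h : sc n v ∈ prism) : v ∈ AA n :=
  ⟨good_of_mem hn h, Or.inl h⟩

end Pool.Agent.H265R3.DF
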